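import Pool.Agent.Helper71.FC.Sat
import Pool.Agent.Helper50.FC.Div
import Pool.Agent.Helper1.FG.AlpL
import Pool.Agent.Helper18.LB.Alg

/-! LEMMA DIV (memo_z4, section 3).  `exists_gam`: `ξ ∧ ξ' = γ θ` for members of the `EE θ`.  `div_no`: four fields
`X_0, .., X_3` of `K_U` with `∑ y_i X_i = 0` and `X_0 ∧ X_1 ∧ X_2 ≠ 0` do not exist.  `div_eps`: a 3-form `b` outside `B`
is not multiplied into `B` by four independent linear forms. -/

set_option autoImplicit false

namespace Pool.Agent.Helper28.Z4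

open MvPolynomial
open scoped BigOperators
open Pool.Agent.Helper71.FL (w12 pf ct Dec Closed dd)
open Pool.Agent.Helper71.FC
open Pool.Agent.Helper50.FC (Prim div1 div1_hom)
open Pool.Agent.Helper1.FG (alp alp_self alp_swap alp_pf cram3 mins mins_hom alp_comb alp_smul alp_add)
open Pool.Agent.Helper18.LB (hom_of_mul hom_right)

variable {n : ℕ}

theorem exists_ne {θ : F2 n} (h : Fol θ) : ∃ i j, θ i j ≠ 0 := by
  by_contra hcon
  push Not at hcon
  have h1 : IsUnit (0 : Pn n) := h.prim 0 (fun i j => by rw [hcon i j])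
  exact not_isUnit_zero h1

/-- cancellation of `θ` -/
theorem cancel_th {θ : F2 n} (h : Fol θ) {f g : Pn n} (hfg : ∀ i j, f * θ i j = g * θ i j) :
    f = g := by
  obtain ⟨i, j, hij⟩ := exists_ne h
  exact mul_right_cancel₀ hij (hfg i j)

/-- two forms annihilated by `θ` have a wedge product proportional to `θ` -/
theorem exists_gam {θ : F2 n} (h : Fol θ) {a b : ℕ} {ξ ξ' : F1 n} (hξ : ξ ∈ EE θ a)
    (hξ' : ξ' ∈ EE θ b) :
    ∃ g : Pn n, g.IsHomogeneous (a + b - 3) ∧ (a + b < 3 → g = 0) ∧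
      ∀ i j, w11 ξ ξ' i j = g * θ i j := by
  have hd := h.dec
  have hμ : Prim (fun p : Fin n × Fin n => θ p.1 p.2) :=
    fun p hp => h.prim p (fun i j => hp (i, j))
  have hw : ∀ p q : Fin n × Fin n,
      w11 (fun p : Fin n × Fin n => w11 ξ ξ' p.1 p.2) (fun p => θ p.1 p.2) p q = 0 := by
    rintro ⟨i, j⟩ ⟨k, l⟩
    have h1 := hξ.2 i k l
    have h2 := hξ.2 j k l
    have h3 := hξ'.2 l i j
    have h4 := hξ'.2 k i j
    unfold w12 at h1 h2 h3 h4
    unfold w11
    have e1 := hd.2.1 l i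
    have e2 := hd.2.1 i k
    have e3 := hd.2.1 l j
    have e4 := hd.2.1 j k
    rw [e1] at h1 h3
    rw [e2] at h1
    rw [e3] at h2
    rw [e4] at h2 h4
    simp only [hd.2.1 j l, hd.2.1 k i, hd.2.1 k j, e1] at *
    linear_combination ξ' j * h1 - ξ' i * h2 - ξ k * h3 + ξ l * h4
  obtain ⟨g, hg1, hg2, hg3⟩ := div1_hom (a := a + b) (b := 3) hμ hw
    (fun p => by
      unfold w11
      exact ((hξ.1 _).mul (hξ'.1 _)).sub ((hξ.1 _).mul (hξ'.1 _)))
    (fun p => h.hom _ _)
  exact ⟨g, hg1, hg2, fun i j => hg3 (i, j)⟩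

/-- members of `E_3` are primitive if `E_0 = E_1 = E_2 = 0` -/
theorem prim3 {θ : F2 n} (h2 : ∀ k ≤ 2, EE θ k = ⊥) {ξ : F1 n} (hξ : ξ ∈ EE θ 3) (h0 : ξ ≠ 0) :
    Prim ξ := by
  intro p hp
  obtain ⟨i0, hi0⟩ : ∃ i, ξ i ≠ 0 := by
    by_contra hcon
    push Not at hcon
    exact h0 (funext hcon)
  choose τ hτ using hp
  have hp0 : p ≠ 0 := by
    rintro rfl
    exact hi0 (by rw [hτ i0, zero_mul])
  have hτ0 : τ i0 ≠ 0 := by
    intro h
    exact hi0 (by rw [hτ i0, h, mul_zero])
  have h3 := hξ.1 i0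
  rw [hτ i0] at h3
  obtain ⟨e, e', he, he', hee⟩ := hom_of_mul h3 hp0 hτ0
  by_contra hnu
  have he1 : e ≠ 0 := by
    rintro rfl
    have h4 : p.totalDegree = 0 := he.totalDegree hp0
    rw [totalDegree_eq_zero_iff_eq_C] at h4
    apply hnu
    rw [h4]
    refine IsUnit.map C (isUnit_iff_ne_zero.mpr ?_)
    intro h5
    rw [h5, map_zero] at h4
    exact hp0 h4
  have hmem : τ ∈ EE θ e' := by
    refine ⟨fun i => ?_, fun i j l => ?_⟩
    · refine hom_right (d := e) ?_ he hp0
      rw [hee, ← hτ i]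
      exact hξ.1 i
    · have h5 := hξ.2 i j l
      have h6 : w12 ξ θ i j l = p * w12 τ θ i j l := by
        unfold w12
        rw [hτ i, hτ j, hτ l]
        ring
      rw [h6] at h5
      exact (mul_eq_zero.mp h5).resolve_left hp0
  rw [h2 e' (by omega), Submodule.mem_bot] at hmem
  exact hτ0 (congrFun hmem i0)

/-- the value of a form on a constant vector -/
theorem pair_eq {θ : F2 n} (h : Fol θ) {ξ : F1 n} {k : ℕ} (hξ : ξ ∈ EE θ k) (v : Fin n → ℂ) (i j : Fin n) :
    pair (cv v) ξ * θ i j = w11 ξ (av θ v) i j := by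
  have h1 : ∀ l, ξ l * θ i j = ξ i * θ l j - ξ j * θ l i := by
    intro l
    have h3 := hξ.2 l i j
    unfold w12 at h3
    rw [h.dec.2.1 j l] at h3
    linear_combination h3
  unfold pair av ct w11
  rw [Finset.sum_mul, Finset.mul_sum, Finset.mul_sum, ← Finset.sum_sub_distrib]
  refine Finset.sum_congr rfl fun l _ => ?_
  linear_combination (cv v l) * h1 l

/-- linear algebra: an alternating matrix with the three independent vectors `r` in its kernel is proportional to
the matrix of minors of `r` -/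
theorem prop_mins {S : Type} [CommRing S] [IsDomain S] (r : Fin 3 → Fin 5 → S) (g : Fin 5 → Fin 5 → S)
    (hg : ∀ i j, g i j = - g j i) (hg0 : ∀ i, g i i = 0) (hr : ∀ l j, ∑ i, g i j * r l i = 0)
    (m p : Fin 5) (hne : mins r (m, p) ≠ 0) (k l : Fin 5) :
    mins r (m, p) * g k l = g m p * mins r (k, l) := by
  have key : ∀ x y z w : Fin 5, mins r (y, z) * g x w - mins r (x, z) * g y w + mins r (x, y) * g z w = 0 := by
    intro x y z w
    have h1 := cram3 r (fun i => g i w) (fun l => hr l w) (Pi.single x 1) (Pi.single y 1) (Pi.single z 1)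
    simpa [mins, Pi.single_apply] using h1
  have hpl : ∀ x y z w : Fin 5, mins r (x, y) * mins r (z, w) - mins r (x, z) * mins r (y, w)
      + mins r (x, w) * mins r (y, z) = 0 := fun x y z w =>
    alp_pf r (Pi.single x 1) (Pi.single y 1) (Pi.single z 1) (Pi.single w 1)
  have hsw : ∀ x y : Fin 5, mins r (x, y) = - mins r (y, x) := fun x y =>
    alp_swap r (Pi.single x 1) (Pi.single y 1)
  have e1 := key k m p l
  have e2 := key l m p m
  have e3 := key l m p p
  have e4 := hpl k l m p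
  apply mul_left_cancel₀ hne
  rw [hg0] at e2 e3
  rw [hg l m, hg p m] at e2
  rw [hg l p] at e3
  linear_combination (mins r (m, p)) * e1 - mins r (k, p) * e2 + mins r (k, m) * e3 - g m p * e4

/-- the minors of four linear fields with `∑ y_i X_i = 0` are divisible by `y_3` -/
theorem dvd_mins {y : Fin 4 → Pn n} (hy : Prime (y 3)) (hy0 : ¬ y 3 ∣ y 0) {X : Fin 4 → Fin 5 → Pn n}
    (hyX : ∀ k, ∑ i, y i * X i k = 0) (p : Fin 5 × Fin 5) :
    y 3 ∣ mins (fun l : Fin 3 => X l.castSucc) p := by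
  set u : Fin 5 → Pn n := Pi.single p.1 1
  set w : Fin 5 → Pn n := Pi.single p.2 1
  let M : (Fin 5 → Pn n) → Pn n := fun z => Matrix.det (Matrix.of ![u, w, z, X 1, X 2])
  have hM : ∀ z, M z = Matrix.det ((Matrix.of ![u, w, 0, X 1, X 2]).updateRow 2 z) := by
    intro z
    show Matrix.det _ = _
    congr 1
    ext a b
    fin_cases a <;> simp [Matrix.updateRow_apply]
  have hadd : ∀ z z', M (z + z') = M z + M z' := by
    intro z z'
    rw [hM, hM, hM, Matrix.det_updateRow_add]
  have hsm : ∀ (c : Pn n) z, M (c • z) = c * M z := by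
    intro c z
    rw [hM, hM, Matrix.det_updateRow_smul]
  have h1 : M (X 1) = 0 := by
    refine Matrix.det_zero_of_row_eq (i := 2) (j := 3) (by decide) rfl
  have h2 : M (X 2) = 0 := by
    refine Matrix.det_zero_of_row_eq (i := 2) (j := 4) (by decide) rfl
  have h0 : M 0 = 0 := by
    have := hsm 0 0
    simpa using this
  have hrel : y 0 • X 0 + (y 1 • X 1 + (y 2 • X 2 + y 3 • X 3)) = 0 := by
    funext k
    have := hyX k
    rw [Fin.sum_univ_four] at this
    simp only [Pi.add_apply, Pi.smul_apply, smul_eq_mul, Pi.zero_apply]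
    linear_combination this
  have h3 : y 0 * M (X 0) + y 3 * M (X 3) = 0 := by
    have := congrArg M hrel
    rw [hadd, hadd, hadd, hsm, hsm, hsm, hsm, h1, h2, h0] at this
    linear_combination this
  have h4 : y 3 ∣ y 0 * M (X 0) := ⟨- M (X 3), by linear_combination h3⟩
  have h5 := (hy.dvd_or_dvd h4).resolve_left hy0
  have h6 : mins (fun l : Fin 3 => X l.castSucc) p = M (X 0) := by
    show Matrix.det _ = Matrix.det _
    congr 1
    ext a b
    fin_cases a <;> rfl
  rw [h6]
  exact h5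

/-- LEMMA DIV -/
theorem div_no {θ : F2 n} (h : Fol θ) (e : Fin 5 → F1 n) (he : ∀ k, e k ∈ EE θ 3)
    (hs : ∀ v, ∃ c : Fin 5 → ℂ, av θ v = ∑ k, c k • e k)
    (y : Fin 4 → Pn n) (hyh : ∀ i, (y i).IsHomogeneous 1) (hy : y 3 ≠ 0) (hy0 : ¬ y 3 ∣ y 0)
    (X : Fin 4 → Fin 5 → Pn n) (hXh : ∀ i k, (X i k).IsHomogeneous 1)
    (hX0 : ∀ i j, ∑ k, X i k * e k j = 0) (hyX : ∀ k, ∑ i, y i * X i k = 0)
    (hr : ∃ p, mins (fun l : Fin 3 => X l.castSucc) p ≠ 0) : False := by
  have hpr : Prime (y 3) := prime_of_hom_one (hyh 3) hy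
  -- the matrix `g`
  have hg' : ∀ k l, ∃ g : Pn n, g.IsHomogeneous 3 ∧ ∀ i j, w11 (e k) (e l) i j = g * θ i j := by
    intro k l
    obtain ⟨g, h3, -, h4⟩ := exists_gam h (he k) (he l)
    exact ⟨g, h3, h4⟩
  choose g hgh hg using hg'
  have hanti : ∀ k l, g k l = - g l k := by
    intro k l
    apply cancel_th h
    intro i j
    rw [← hg, neg_mul, ← hg]
    unfold w11
    ring
  have hdiag : ∀ k, g k k = 0 := by
    intro k
    apply cancel_th h
    intro i j
    rw [← hg, zero_mul]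
    unfold w11
    ring
  have hker : ∀ (l : Fin 3) (j : Fin 5), ∑ i, g i j * X l.castSucc i = 0 := by
    intro l j
    apply cancel_th h
    intro a b
    have h3 : ∀ i, g i j * X l.castSucc i * θ a b =
        X l.castSucc i * e i a * e j b - X l.castSucc i * e i b * e j a := by
      intro i
      have := hg i j a b
      unfold w11 at this
      linear_combination - (X l.castSucc i) * this
    rw [Finset.sum_mul, zero_mul, Finset.sum_congr rfl (fun i _ => h3 i), Finset.sum_sub_distrib,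
      ← Finset.sum_mul, ← Finset.sum_mul, hX0, hX0]
    ring
  -- `g` is primitive
  have hprim : Prim (fun p : Fin 5 × Fin 5 => g p.1 p.2) := by
    intro p hp
    refine h.prim p fun a b => ?_
    obtain ⟨c, hc⟩ := hs (Pi.single a 1)
    obtain ⟨c', hc'⟩ := hs (Pi.single b 1)
    have h3 : θ a b = ∑ k, ∑ l, C (c k) * C (c' l) * g k l := by
      apply cancel_th h
      intro i j
      have h4 := pair_eq h (av_mem_EE h.dec h.hom (Pi.single a 1)) (Pi.single b 1) i j
      have h5 : pair (cv (Pi.single b 1)) (av θ (Pi.single a 1)) = θ a b := by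
        unfold pair cv av ct cv
        simp [Pi.single_apply]
      rw [h5, hc, hc'] at h4
      rw [h4, Finset.sum_mul]
      unfold w11
      rw [Finset.sum_apply, Finset.sum_apply, Finset.sum_apply, Finset.sum_apply, Finset.sum_mul_sum,
        Finset.sum_mul_sum, ← Finset.sum_sub_distrib]
      refine Finset.sum_congr rfl fun k _ => ?_
      rw [← Finset.sum_sub_distrib, Finset.sum_mul]
      refine Finset.sum_congr rfl fun l _ => ?_
      have h6 := hg k l i j
      unfold w11 at h6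
      simp only [Pi.smul_apply, smul_eq_C_mul]
      linear_combination C (c k) * C (c' l) * h6
    rw [h3]
    exact Finset.dvd_sum fun k _ => Finset.dvd_sum fun l _ => Dvd.dvd.mul_left (hp (k, l)) _
  -- the quotients
  choose κ hκ using fun p => dvd_mins hpr hy0 hyX p
  have hκh : ∀ p, (κ p).IsHomogeneous 2 := by
    intro p
    refine hom_right (d := 1) (f := y 3) ?_ (hyh 3) hy
    rw [← hκ p]
    have := mins_hom (k := 3) (fun _ => 0) (fun _ => 1) (fun l : Fin 3 => X l.castSucc)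
      (fun l i => by simpa using hXh l.castSucc i) p
    simpa using this
  obtain ⟨⟨m, m'⟩, hp0⟩ := hr
  have hκ0 : κ (m, m') ≠ 0 := by
    intro h3
    exact hp0 (by rw [hκ, h3, mul_zero])
  have hprop' : ∀ k l : Fin 5, κ (m, m') * g k l = g m m' * κ (k, l) := by
    intro k l
    have h3 := prop_mins (fun l : Fin 3 => X l.castSucc) g hanti hdiag hker m m' hp0 k l
    rw [hκ (m, m'), hκ (k, l)] at h3
    apply mul_left_cancel₀ hy
    rw [← mul_assoc, h3]
    exact mul_left_comm _ _ _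
  have hprop : ∀ q : Fin 5 × Fin 5, κ (m, m') * g q.1 q.2 = g m m' * κ q :=
    fun q => hprop' q.1 q.2
  obtain ⟨a, -, ha0, ha⟩ := div1_hom (a := 2) (b := 3) (μ := fun p : Fin 5 × Fin 5 => g p.1 p.2) (ξ := κ)
    hprim (by
      intro p q
      have e1 := hprop q
      have e2 := hprop p
      unfold w11
      apply mul_left_cancel₀ hκ0
      linear_combination (κ p) * e1 - κ q * e2) hκh (fun p => hgh _ _)
  apply hκ0
  rw [ha (m, m'), ha0 (by norm_num), zero_mul]

theorem exists_span5 (F' : Submodule ℂ (F1 n)) (hfin : Module.Finite ℂ F')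
    (h5 : Module.finrank ℂ F' ≤ 5) :
    ∃ e : Fin 5 → F1 n, (∀ k, e k ∈ F') ∧ ∀ f ∈ F', ∃ c : Fin 5 → ℂ, f = ∑ k, c k • e k := by
  classical
  let B := Module.finBasis ℂ F'
  let e : Fin 5 → F' := fun k => if h : k.1 < Module.finrank ℂ F' then B ⟨k.1, h⟩ else 0
  refine ⟨fun k => (e k : F1 n), fun k => (e k).2, fun f hf => ?_⟩
  have h1 : (⟨f, hf⟩ : F') ∈ Submodule.span ℂ (Set.range e) := by
    have h2 : Submodule.span ℂ (Set.range B) ≤ Submodule.span ℂ (Set.range e) := by
      apply Submodule.span_mono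
      rintro _ ⟨i, rfl⟩
      refine ⟨⟨i.1, lt_of_lt_of_le i.2 h5⟩, ?_⟩
      show (if h : i.1 < Module.finrank ℂ F' then B ⟨i.1, h⟩ else 0) = B i
      rw [dif_pos i.2]
    apply h2
    rw [B.span_eq]
    trivial
  obtain ⟨c, hc⟩ := (Submodule.mem_span_range_iff_exists_fun ℂ).mp h1
  refine ⟨c, ?_⟩
  have h3 : ((∑ i, c i • e i : F') : F1 n) = f := congrArg Subtype.val hc
  rw [← h3, Submodule.coe_sum]
  rfl

/-- independent vectors have a non zero minor -/
theorem exists_mins {V : Fin 3 → Fin 5 → ℂ} (hV : LinearIndependent ℂ V) : ∃ p, mins V p ≠ 0 := by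
  by_contra hcon
  push Not at hcon
  obtain ⟨y, hy⟩ := exists_linearIndependent_cons_of_lt_finrank hV (by simp)
  obtain ⟨x, hx⟩ := exists_linearIndependent_cons_of_lt_finrank hy (by simp)
  have h1 : alp V x y ≠ 0 := by
    unfold alp
    have h2 : LinearIndependent ℂ (Matrix.of (Fin.cons x (Fin.cons y V) : Fin 5 → Fin 5 → ℂ)).row := hx
    rw [Matrix.linearIndependent_rows_iff_isUnit] at h2
    exact ((Matrix.isUnit_iff_isUnit_det _).mp h2).ne_zero
  apply h1
  have h3 := Pool.Agent.Helper1.FG.alp_mem V x y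
  unfold Pool.Agent.Helper1.FG.MinI at h3
  have h4 : Set.range (mins V) ⊆ {0} := by
    rintro _ ⟨p, rfl⟩
    exact hcon p
  have h5 := Ideal.span_mono h4 h3
  rwa [Ideal.span_singleton_zero] at h5

/-- every vector of `ℂ³` is a cross product -/
theorem cross_surj (c : Fin 3 → ℂ) : ∃ u w : Fin 3 → ℂ, u 1 * w 2 - u 2 * w 1 = c 0 ∧
    u 2 * w 0 - u 0 * w 2 = c 1 ∧ u 0 * w 1 - u 1 * w 0 = c 2 := by
  by_cases h0 : c 0 = 0
  · by_cases h1 : c 1 = 0
    · refine ⟨![1, 0, 0], ![0, c 2, 0], ?_, ?_, ?_⟩ <;> simp [h0, h1]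
    · refine ⟨![c 1, - c 0, 0], ![0, c 2 / c 1, -1], ?_, ?_, ?_⟩ <;> simp [h0] <;> field_simp
  · refine ⟨![-c 1, c 0, 0], ![-c 2 / c 0, 0, 1], ?_, ?_, ?_⟩ <;> simp <;> field_simp

/-- LEMMA DIV for the `ε`-fields of a 3-form -/
theorem div_eps {θ : F2 n} (h : Fol θ) (F' : Submodule ℂ (F1 n)) (hF : F' ≤ EE θ 3)
    (h5 : Module.finrank ℂ F' ≤ 5) (hav : ∀ v, av θ v ∈ F') (b : F3 n) (hb : ¬ IsB θ b)
    (y : Fin 4 → Pn n) (hy : ∀ i, (y i).IsHomogeneous 1)
    (hind : ∀ c : Fin 4 → ℂ, ∑ i, C (c i) * y i = 0 → c = 0) (ξ : Fin 4 → F1 n)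
    (hξ : ∀ i a c e, y i * b a c e = w12 (ξ i) θ a c e)
    (hε : ∀ i j, (fun a => y j * ξ i a - y i * ξ j a) ∈ F') : False := by
  have hfin : Module.Finite ℂ F' := by
    have := finite_EE θ 3
    exact Module.Finite.of_injective (Submodule.inclusion hF) (Submodule.inclusion_injective _)
  obtain ⟨e, he, hsp⟩ := exists_span5 F' hfin h5
  have hcoord : ∀ i j, ∃ E : Fin 5 → ℂ, ∀ a, y j * ξ i a - y i * ξ j a = ∑ k, C (E k) * e k a := by
    intro i j
    obtain ⟨E, hE⟩ := hsp _ (hε i j)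
    refine ⟨E, fun a => ?_⟩
    have := congrFun hE a
    simp only [Finset.sum_apply, Pi.smul_apply, smul_eq_C_mul] at this
    exact this
  choose E hE using hcoord
  let X : Fin 4 → Fin 5 → Pn n := ![
    fun k => y 1 * C (E 2 3 k) - y 2 * C (E 1 3 k) + y 3 * C (E 1 2 k),
    fun k => - (y 0 * C (E 2 3 k)) + y 2 * C (E 0 3 k) + y 3 * C (E 2 0 k),
    fun k => y 0 * C (E 1 3 k) - y 1 * C (E 0 3 k) + y 3 * C (E 0 1 k),
    fun k => - (y 0 * C (E 1 2 k) + y 1 * C (E 2 0 k) + y 2 * C (E 0 1 k))]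
  have hyE : ∀ i (c : ℂ), (y i * C c).IsHomogeneous 1 := by
    intro i c
    have := (hy i).mul (isHomogeneous_C (Fin n) c)
    simpa using this
  have hsum : ∀ i j a, ∑ k, C (E i j k) * e k a = y j * ξ i a - y i * ξ j a := fun i j a => (hE i j a).symm
  have hy3 : y 3 ≠ 0 := by
    intro h3
    have := congrFun (hind (Pi.single 3 1) (by simp [Fin.sum_univ_four, Pi.single_apply, h3])) 3
    simp at this
  have hy30 : ¬ y 3 ∣ y 0 := by
    rintro ⟨g, hg⟩
    have h0 : y 0 ≠ 0 := by
      intro h3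
      have := congrFun (hind (Pi.single 0 1) (by simp [Fin.sum_univ_four, Pi.single_apply, h3])) 0
      simp at this
    have hg0 : g ≠ 0 := by
      rintro rfl
      exact h0 (by rw [hg, mul_zero])
    have h1 : (y 0).totalDegree = (y 3).totalDegree + g.totalDegree := by
      rw [hg]
      exact totalDegree_mul_of_isDomain hy3 hg0
    rw [(hy 0).totalDegree h0, (hy 3).totalDegree hy3] at h1
    have h2 : g.totalDegree = 0 := by omega
    obtain ⟨r, hr⟩ : ∃ r, g = C r := ⟨_, (totalDegree_eq_zero_iff_eq_C (p := g)).mp h2⟩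
    have h4 := hind ![-1, 0, 0, r] (by
      simp only [Fin.sum_univ_four, Matrix.cons_val_zero, Matrix.cons_val_one, Matrix.cons_val,
        map_neg, map_one, map_zero]
      rw [hg, hr]
      ring)
    have h5 := congrFun h4 0
    simp at h5
  refine div_no h e (fun k => hF (he k)) (fun v => hsp _ (hav v)) y hy hy3 hy30 X ?_ ?_ ?_ ?_
  · intro i k
    fin_cases i
    · exact ((hyE 1 _).sub (hyE 2 _)).add (hyE 3 _)
    · exact ((hyE 0 _).neg.add (hyE 2 _)).add (hyE 3 _)
    · exact ((hyE 0 _).sub (hyE 1 _)).add (hyE 3 _)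
    · exact (((hyE 0 _).add (hyE 1 _)).add (hyE 2 _)).neg
  · intro i a
    have key : ∀ (f g h' : Pn n) (p q r : Fin 5 → ℂ), ∑ k, (f * C (p k) + g * C (q k) + h' * C (r k)) * e k a
        = f * ∑ k, C (p k) * e k a + g * ∑ k, C (q k) * e k a + h' * ∑ k, C (r k) * e k a := by
      intro f g h' p q r
      rw [Finset.mul_sum, Finset.mul_sum, Finset.mul_sum, ← Finset.sum_add_distrib, ← Finset.sum_add_distrib]
      exact Finset.sum_congr rfl fun k _ => by ring
    fin_cases i
    · show ∑ k, (y 1 * C (E 2 3 k) - y 2 * C (E 1 3 k) + y 3 * C (E 1 2 k)) * e k a = 0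
      have := key (y 1) (- y 2) (y 3) (E 2 3) (E 1 3) (E 1 2)
      rw [hsum, hsum, hsum] at this
      rw [Finset.sum_congr rfl (fun k _ => by ring : ∀ k ∈ Finset.univ,
        (y 1 * C (E 2 3 k) - y 2 * C (E 1 3 k) + y 3 * C (E 1 2 k)) * e k a =
        (y 1 * C (E 2 3 k) + - y 2 * C (E 1 3 k) + y 3 * C (E 1 2 k)) * e k a), this]
      ring
    · show ∑ k, (- (y 0 * C (E 2 3 k)) + y 2 * C (E 0 3 k) + y 3 * C (E 2 0 k)) * e k a = 0
      have := key (- y 0) (y 2) (y 3) (E 2 3) (E 0 3) (E 2 0)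
      rw [hsum, hsum, hsum] at this
      rw [Finset.sum_congr rfl (fun k _ => by ring : ∀ k ∈ Finset.univ,
        (- (y 0 * C (E 2 3 k)) + y 2 * C (E 0 3 k) + y 3 * C (E 2 0 k)) * e k a =
        (- y 0 * C (E 2 3 k) + y 2 * C (E 0 3 k) + y 3 * C (E 2 0 k)) * e k a), this]
      ring
    · show ∑ k, (y 0 * C (E 1 3 k) - y 1 * C (E 0 3 k) + y 3 * C (E 0 1 k)) * e k a = 0
      have := key (y 0) (- y 1) (y 3) (E 1 3) (E 0 3) (E 0 1)
      rw [hsum, hsum, hsum] at this
      rw [Finset.sum_congr rfl (fun k _ => by ring : ∀ k ∈ Finset.univ,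
        (y 0 * C (E 1 3 k) - y 1 * C (E 0 3 k) + y 3 * C (E 0 1 k)) * e k a =
        (y 0 * C (E 1 3 k) + - y 1 * C (E 0 3 k) + y 3 * C (E 0 1 k)) * e k a), this]
      ring
    · show ∑ k, (- (y 0 * C (E 1 2 k) + y 1 * C (E 2 0 k) + y 2 * C (E 0 1 k))) * e k a = 0
      have := key (- y 0) (- y 1) (- y 2) (E 1 2) (E 2 0) (E 0 1)
      rw [hsum, hsum, hsum] at this
      rw [Finset.sum_congr rfl (fun k _ => by ring : ∀ k ∈ Finset.univ,
        (- (y 0 * C (E 1 2 k) + y 1 * C (E 2 0 k) + y 2 * C (E 0 1 k))) * e k a =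
        (- y 0 * C (E 1 2 k) + - y 1 * C (E 2 0 k) + - y 2 * C (E 0 1 k)) * e k a), this]
      ring
  · intro k
    rw [Fin.sum_univ_four]
    show y 0 * (y 1 * C (E 2 3 k) - y 2 * C (E 1 3 k) + y 3 * C (E 1 2 k)) +
      y 1 * (- (y 0 * C (E 2 3 k)) + y 2 * C (E 0 3 k) + y 3 * C (E 2 0 k)) +
      y 2 * (y 0 * C (E 1 3 k) - y 1 * C (E 0 3 k) + y 3 * C (E 0 1 k)) +
      y 3 * (- (y 0 * C (E 1 2 k) + y 1 * C (E 2 0 k) + y 2 * C (E 0 1 k))) = 0
    ring
  · -- a non zero minor
    obtain ⟨x, hx⟩ : ∃ x : Fin n → ℂ, eval x (y 3) ≠ 0 := by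
      by_contra hcon
      push Not at hcon
      exact hy3 (funext fun x => by rw [hcon x, map_zero])
    have hV : LinearIndependent ℂ (fun (l : Fin 3) (k : Fin 5) => eval x (X l.castSucc k)) := by
      rw [Fintype.linearIndependent_iff]
      intro c hc
      by_contra hne
      obtain ⟨u, w, hc0, hc1, hc2⟩ := cross_surj c
      set a : Fin 4 → ℂ := fun i => eval x (y i) with ha
      set p3 : ℂ := - (u 0 * a 0 + u 1 * a 1 + u 2 * a 2) / a 3 with hp3
      set q3 : ℂ := - (w 0 * a 0 + w 1 * a 1 + w 2 * a 2) / a 3 with hq3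
      have ha3 : a 3 ≠ 0 := hx
      have hp3' : a 3 * p3 = - (u 0 * a 0 + u 1 * a 1 + u 2 * a 2) := by rw [hp3]; field_simp
      have hq3' : a 3 * q3 = - (w 0 * a 0 + w 1 * a 1 + w 2 * a 2) := by rw [hq3]; field_simp
      have hc' : ∀ k, c 0 * (a 1 * E 2 3 k - a 2 * E 1 3 k + a 3 * E 1 2 k) +
          c 1 * (- (a 0 * E 2 3 k) + a 2 * E 0 3 k + a 3 * E 2 0 k) +
          c 2 * (a 0 * E 1 3 k - a 1 * E 0 3 k + a 3 * E 0 1 k) = 0 := by
        intro k
        have h1 := congrFun hc k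
        rw [Fin.sum_univ_three] at h1
        have e0 : eval x (X (Fin.castSucc 0) k) = a 1 * E 2 3 k - a 2 * E 1 3 k + a 3 * E 1 2 k := by
          show eval x (y 1 * C (E 2 3 k) - y 2 * C (E 1 3 k) + y 3 * C (E 1 2 k)) = _
          simp [ha]
        have e1 : eval x (X (Fin.castSucc 1) k) = - (a 0 * E 2 3 k) + a 2 * E 0 3 k + a 3 * E 2 0 k := by
          show eval x (- (y 0 * C (E 2 3 k)) + y 2 * C (E 0 3 k) + y 3 * C (E 2 0 k)) = _
          simp [ha]
        have e2 : eval x (X (Fin.castSucc 2) k) = a 0 * E 1 3 k - a 1 * E 0 3 k + a 3 * E 0 1 k := by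
          show eval x (y 0 * C (E 1 3 k) - y 1 * C (E 0 3 k) + y 3 * C (E 0 1 k)) = _
          simp [ha]
        simp only [Pi.add_apply, Pi.smul_apply, smul_eq_mul, Pi.zero_apply, e0, e1, e2] at h1
        linear_combination h1
      let p : Fin 4 → ℂ := ![u 0, u 1, u 2, p3]
      let q : Fin 4 → ℂ := ![w 0, w 1, w 2, q3]
      have hcne : c ≠ 0 := by
        rintro rfl
        exact hne (fun i => rfl)
      have hsc : ∀ s t : ℂ, s • u + t • w = 0 → s = 0 ∧ t = 0 := by
        intro s t hst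
        have k0 := congrFun hst 0
        have k1 := congrFun hst 1
        have k2 := congrFun hst 2
        simp only [Pi.add_apply, Pi.smul_apply, smul_eq_mul, Pi.zero_apply] at k0 k1 k2
        have hs : s • c = 0 := by
          funext i
          fin_cases i
          · show s * c 0 = 0
            rw [← hc0]; linear_combination w 2 * k1 - w 1 * k2
          · show s * c 1 = 0
            rw [← hc1]; linear_combination w 0 * k2 - w 2 * k0
          · show s * c 2 = 0
            rw [← hc2]; linear_combination w 1 * k0 - w 0 * k1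
        have ht : t • c = 0 := by
          funext i
          fin_cases i
          · show t * c 0 = 0
            rw [← hc0]; linear_combination u 1 * k2 - u 2 * k1
          · show t * c 1 = 0
            rw [← hc1]; linear_combination u 2 * k0 - u 0 * k2
          · show t * c 2 = 0
            rw [← hc2]; linear_combination u 0 * k1 - u 1 * k0
        exact ⟨(smul_eq_zero.mp hs).resolve_right hcne, (smul_eq_zero.mp ht).resolve_right hcne⟩
      have hyp : ∀ r : Fin 4 → ℂ, (∑ i, C (r i) * y i).IsHomogeneous 1 := by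
        intro r
        refine IsHomogeneous.sum _ _ _ fun i _ => ?_
        have := (isHomogeneous_C (Fin n) (r i)).mul (hy i)
        simpa using this
      obtain ⟨-, l, hl⟩ := ann_lemma hb (hyp p) (hyp q) (by
          intro s t hst
          have h1 : (fun i => s * p i + t * q i) = 0 := by
            apply hind
            rw [← hst, Finset.mul_sum, Finset.mul_sum, ← Finset.sum_add_distrib]
            refine Finset.sum_congr rfl fun i _ => ?_
            rw [map_add, map_mul, map_mul]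
            ring
          apply hsc s t
          funext i
          fin_cases i
          · exact congrFun h1 0
          · exact congrFun h1 1
          · exact congrFun h1 2)
        (ξ := fun a => ∑ i, C (p i) * ξ i a) (ξ' := fun a => ∑ i, C (q i) * ξ i a)
        (by
          intro i j k
          have h1 : ∀ s : Fin 4, C (p s) * y s * b i j k = w12 (fun l => C (p s) * ξ s l) θ i j k := by
            intro s
            rw [mul_assoc, hξ, Pool.Agent.Helper71.FL.w12_smul]
          rw [Finset.sum_mul, Finset.sum_congr rfl (fun s _ => h1 s)]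
          unfold w12
          simp only [Finset.sum_mul, Finset.sum_add_distrib])
        (by
          intro i j k
          have h1 : ∀ s : Fin 4, C (q s) * y s * b i j k = w12 (fun l => C (q s) * ξ s l) θ i j k := by
            intro s
            rw [mul_assoc, hξ, Pool.Agent.Helper71.FL.w12_smul]
          rw [Finset.sum_mul, Finset.sum_congr rfl (fun s _ => h1 s)]
          unfold w12
          simp only [Finset.sum_mul, Finset.sum_add_distrib])
      apply hl
      have hx3 : (C (a 3) : Pn n) ≠ 0 := by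
        intro h1
        exact ha3 (C_injective _ _ (by rw [h1, map_zero]))
      apply mul_left_cancel₀ hx3
      have hcomb : ∑ k, C (a 3 * (u 0 * w 1 - u 1 * w 0) * E 0 1 k + a 3 * (u 2 * w 0 - u 0 * w 2) * E 2 0 k
          + a 3 * (u 1 * w 2 - u 2 * w 1) * E 1 2 k + a 3 * (u 0 * q3 - p3 * w 0) * E 0 3 k
          + a 3 * (u 1 * q3 - p3 * w 1) * E 1 3 k + a 3 * (u 2 * q3 - p3 * w 2) * E 2 3 k) * e k l = 0 := by
        apply Finset.sum_eq_zero
        intro k _
        have h1 : a 3 * (u 0 * w 1 - u 1 * w 0) * E 0 1 k + a 3 * (u 2 * w 0 - u 0 * w 2) * E 2 0 k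
          + a 3 * (u 1 * w 2 - u 2 * w 1) * E 1 2 k + a 3 * (u 0 * q3 - p3 * w 0) * E 0 3 k
          + a 3 * (u 1 * q3 - p3 * w 1) * E 1 3 k + a 3 * (u 2 * q3 - p3 * w 2) * E 2 3 k = 0 := by
          have h2 := hc' k
          rw [← hc0, ← hc1, ← hc2] at h2
          linear_combination h2 + (u 0 * E 0 3 k + u 1 * E 1 3 k + u 2 * E 2 3 k) * hq3'
            - (w 0 * E 0 3 k + w 1 * E 1 3 k + w 2 * E 2 3 k) * hp3'
        rw [h1, map_zero, zero_mul]
      have hex : ∑ k, C (a 3 * (u 0 * w 1 - u 1 * w 0) * E 0 1 k + a 3 * (u 2 * w 0 - u 0 * w 2) * E 2 0 k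
          + a 3 * (u 1 * w 2 - u 2 * w 1) * E 1 2 k + a 3 * (u 0 * q3 - p3 * w 0) * E 0 3 k
          + a 3 * (u 1 * q3 - p3 * w 1) * E 1 3 k + a 3 * (u 2 * q3 - p3 * w 2) * E 2 3 k) * e k l =
          C (a 3 * (u 0 * w 1 - u 1 * w 0)) * (∑ k, C (E 0 1 k) * e k l) +
          C (a 3 * (u 2 * w 0 - u 0 * w 2)) * (∑ k, C (E 2 0 k) * e k l) +
          C (a 3 * (u 1 * w 2 - u 2 * w 1)) * (∑ k, C (E 1 2 k) * e k l) +
          C (a 3 * (u 0 * q3 - p3 * w 0)) * (∑ k, C (E 0 3 k) * e k l) +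
          C (a 3 * (u 1 * q3 - p3 * w 1)) * (∑ k, C (E 1 3 k) * e k l) +
          C (a 3 * (u 2 * q3 - p3 * w 2)) * (∑ k, C (E 2 3 k) * e k l) := by
        simp only [Finset.mul_sum, ← Finset.sum_add_distrib]
        refine Finset.sum_congr rfl fun k _ => ?_
        simp only [map_add, map_mul]
        ring
      rw [hex, hsum, hsum, hsum, hsum, hsum, hsum] at hcomb
      simp only [Fin.sum_univ_four]
      show C (a 3) * ((C (u 0) * y 0 + C (u 1) * y 1 + C (u 2) * y 2 + C p3 * y 3) *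
        (C (w 0) * ξ 0 l + C (w 1) * ξ 1 l + C (w 2) * ξ 2 l + C q3 * ξ 3 l) -
        (C (w 0) * y 0 + C (w 1) * y 1 + C (w 2) * y 2 + C q3 * y 3) *
        (C (u 0) * ξ 0 l + C (u 1) * ξ 1 l + C (u 2) * ξ 2 l + C p3 * ξ 3 l)) = C (a 3) * 0
      simp only [map_mul, map_sub] at hcomb
      linear_combination - hcomb
    obtain ⟨p, hp⟩ := exists_mins hV
    refine ⟨p, fun h0 => hp ?_⟩
    have h1 := Pool.Agent.Helper1.FG.alp_map (fun l : Fin 3 => X l.castSucc) (eval x)
      (Pi.single p.1 1) (Pi.single p.2 1)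
    have h2 : ∀ i : Fin 5, (fun j => eval x ((Pi.single i 1 : Fin 5 → Pn n) j)) = Pi.single i 1 := by
      intro i
      funext j
      by_cases hij : j = i
      · subst hij
        simp
      · simp [Pi.single_apply, hij]
    rw [h2, h2] at h1
    show alp _ _ _ = 0
    rw [h1]
    have h3 : alp (fun l : Fin 3 => X l.castSucc) (Pi.single p.1 1) (Pi.single p.2 1) = 0 := h0
    rw [h3, map_zero]

end Pool.Agent.Helper28.Z4
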