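import Pool.Agent.Helper28.Z4.SL2
import Pool.Agent.Helper28.Z4.Div
import Pool.Agent.Helper12.Z4.R2b

/-! S1, S2, S3: two linear fields `E`, `W` tangent to `θ` of the form `Fm1`, `Fm2` or `Fm3` do not exist.
`ct_pb2`: tangent linear fields in other coordinates.  `wedge_no`: `θ(v, v') = 0` for independent constant vectors is impossible. -/

set_option autoImplicit false

namespace Pool.Agent.Helper28.Z4

open MvPolynomial
open scoped BigOperators
open Pool.Agent.Helper71.FL (w12 pf ct Dec Closed dd)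
open Pool.Agent.Helper93 (lsub lmap OF pb eval_lsub)
open Pool.Agent.Helper71.FC
open Pool.Agent.Helper50.FC (Prim div1 div1_hom)
open Pool.Agent.Helper12.Z4 (V5 Fm1 Fm2 Fm3 KX avE mem_KX)

variable {n : ℕ}

/-- `θ(v, v') ≠ 0` for independent constant vectors -/
theorem wedge_no {θ : F2 n} (h : Fol θ) (hc : ¬ Cone θ) (h2 : ∀ k ≤ 2, EE θ k = ⊥)
    {v v' : Fin n → ℂ} (hv : LinearIndependent ℂ ![v, v']) (hz : pair (cv v) (av θ v') = 0) :
    False := by
  have hm' := av_mem_EE h.dec h.hom v'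
  have hm := av_mem_EE h.dec h.hom v
  have hne' : av θ v' ≠ 0 := by
    intro h0
    refine hc ⟨v', hv.ne_zero 1, fun j => congrFun h0 j⟩
  have hP := prim3 h2 hm' hne'
  have hw : ∀ i j, w11 (av θ v) (av θ v') i j = 0 := by
    intro i j
    have h3 := pair_eq h hm' v i j
    rw [hz, zero_mul] at h3
    have h4 : w11 (av θ v) (av θ v') i j = - w11 (av θ v') (av θ v) i j := by
      unfold w11
      ring
    rw [h4, ← h3, neg_zero]
  obtain ⟨g, hg, -, hgv⟩ := div1_hom hP hw hm.1 hm'.1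
  have hg0 : g = C (coeff 0 g) := by
    have h3 : g.totalDegree = 0 := by
      by_cases h0 : g = 0
      · rw [h0, totalDegree_zero]
      · exact hg.totalDegree h0
    exact (totalDegree_eq_zero_iff_eq_C (p := g)).mp h3
  set c := coeff 0 g
  have hvc : v - c • v' ≠ 0 := by
    intro h0
    have h3 := (LinearIndependent.pair_iff.mp hv) 1 (-c) (by rw [one_smul, neg_smul, ← sub_eq_add_neg, h0])
    exact one_ne_zero h3.1
  refine hc ⟨v - c • v', hvc, fun j => ?_⟩
  have h4 := hgv j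
  rw [hg0] at h4
  have h5 : av θ (v - c • v') j = av θ v j - C c * av θ v' j := by
    unfold av ct cv
    rw [Finset.mul_sum, ← Finset.sum_sub_distrib]
    refine Finset.sum_congr rfl fun l _ => ?_
    rw [Pi.sub_apply, Pi.smul_apply, smul_eq_mul, map_sub, map_mul]
    ring
  rw [h5, h4, sub_self]

private theorem ev_pb2 {m : ℕ} (g : Fin n → Fin m → ℂ) (θ : F2 n) (i j : Fin m) (y : Fin m → ℂ) :
    eval y (pb2 g θ i j) = ∑ k, ∑ l, g k i * g l j * eval (lmap g y) (θ k l) := by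
  unfold pb2
  rw [map_sum]
  refine Finset.sum_congr rfl fun k _ => ?_
  rw [map_sum]
  refine Finset.sum_congr rfl fun l _ => ?_
  rw [map_mul, eval_C, eval_lsub]

/-- linear fields tangent to `θ` in the coordinates given by a basis -/
theorem ct_pb2 {θ : F2 n} (b : Fin n → Fin n → ℂ) (E : (Fin n → ℂ) →ₗ[ℂ] (Fin n → ℂ))
    (hE : ∀ x j, ∑ i, E x i * eval x (θ i j) = 0) (A : Matrix (Fin n) (Fin n) ℂ)
    (hA : ∀ i, E (b i) = ∑ l, A l i • b l) (j : Fin n) :
    ct (fld A) (pb2 (fun k i => b i k) θ) j = 0 := by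
  apply MvPolynomial.funext
  intro y
  set x : Fin n → ℂ := lmap (fun k i => b i k) y with hx
  have hxb : x = ∑ l, y l • b l := by
    funext k
    rw [Finset.sum_apply]
    show ∑ l, b l k * y l = _
    exact Finset.sum_congr rfl fun l _ => by rw [Pi.smul_apply, smul_eq_mul, mul_comm]
  have hEx : ∀ k, E x k = ∑ i, (∑ l, A i l * y l) * b i k := by
    intro k
    rw [hxb, map_sum, Finset.sum_apply]
    have h1 : ∀ l, (E (y l • b l)) k = ∑ i, y l * (A i l * b i k) := by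
      intro l
      rw [map_smul, hA, Pi.smul_apply, Finset.sum_apply, smul_eq_mul, Finset.mul_sum]
      exact Finset.sum_congr rfl fun i _ => by rw [Pi.smul_apply, smul_eq_mul]
    rw [Finset.sum_congr rfl (fun l _ => h1 l), Finset.sum_comm]
    refine Finset.sum_congr rfl fun i _ => ?_
    rw [Finset.sum_mul]
    exact Finset.sum_congr rfl fun l _ => by ring
  unfold ct
  rw [map_sum, map_zero]
  have h2 : ∀ i, eval y (fld A i * pb2 (fun k i => b i k) θ i j) =
      ∑ l, b j l * ∑ k, ((∑ m, A i m * y m) * b i k) * eval x (θ k l) := by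
    intro i
    rw [map_mul, ev_pb2, ← hx]
    have h3 : eval y (fld A i) = ∑ m, A i m * y m := by
      unfold fld
      rw [map_sum]
      exact Finset.sum_congr rfl fun m _ => by rw [map_mul, eval_C, eval_X]
    rw [h3, Finset.sum_comm, Finset.mul_sum]
    refine Finset.sum_congr rfl fun l _ => ?_
    rw [Finset.mul_sum, Finset.mul_sum]
    exact Finset.sum_congr rfl fun k _ => by ring
  rw [Finset.sum_congr rfl (fun i _ => h2 i), Finset.sum_comm]
  apply Finset.sum_eq_zero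
  intro l _
  rw [← Finset.mul_sum, Finset.sum_comm]
  have h4 : ∑ k, ∑ i, (∑ m, A i m * y m) * b i k * eval x (θ k l) = 0 := by
    rw [← hE x l]
    refine Finset.sum_congr rfl fun k _ => ?_
    rw [hEx, Finset.sum_mul]
  rw [h4, mul_zero]

/-- the vanishing of `θ(b i, b j)` in new coordinates -/
theorem pair_of_pb2 {θ : F2 n} (b : Module.Basis (Fin n) ℂ (Fin n → ℂ)) {i j : Fin n}
    (h0 : pb2 (fun k i => b i k) θ j i = 0) : pair (cv (b i)) (av θ (b j)) = 0 := by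
  apply MvPolynomial.funext
  intro x
  rw [map_zero]
  set y : Fin n → ℂ := fun l => b.repr x l with hy
  have hx : lmap (fun k i => b i k) y = x := by
    funext k
    show ∑ l, b l k * y l = x k
    have h1 := congrFun (b.sum_repr x) k
    rw [Finset.sum_apply] at h1
    rw [← h1]
    exact Finset.sum_congr rfl fun l _ => by rw [Pi.smul_apply, smul_eq_mul, mul_comm]
  have h2 := congrArg (eval y) h0
  rw [ev_pb2, hx, map_zero, Finset.sum_comm] at h2
  unfold pair av ct cv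
  rw [map_sum, ← h2]
  refine Finset.sum_congr rfl fun l _ => ?_
  rw [map_mul, map_sum, eval_C, Finset.mul_sum]
  refine Finset.sum_congr rfl fun k _ => ?_
  rw [map_mul, eval_C]
  ring

/-- tangency from `KX` -/
theorem sum_of_KX {θ : F2 n} (h : Fol θ) {E : (Fin n → ℂ) →ₗ[ℂ] (Fin n → ℂ)}
    (hE : ∀ x, avE θ h (E x) ∈ KX θ x) (x : Fin n → ℂ) (j : Fin n) :
    ∑ i, E x i * eval x (θ i j) = 0 := by
  have h1 := mem_KX.mp (hE x) j
  have h2 : ((avE θ h (E x) : EE θ 3) : F1 n) j = ∑ i, C (E x i) * θ i j := rfl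
  rw [h2, map_sum] at h1
  rw [← h1]
  exact Finset.sum_congr rfl fun i _ => by rw [map_mul, eval_C]

/-- a form is zero if no monomial is allowed -/
theorem zero_of_wt {η : F2 5} (hη : ∀ i j, (η i j).IsHomogeneous 3) {ζ : Fin 5 → ℤ} {i j : Fin 5}
    (hw : ∀ s, coeff s (η i j) ≠ 0 → ζ i + ζ j + ∑ k, (s k : ℤ) * ζ k ≤ 0) (c : ℤ)
    (hlow : ∀ k, c ≤ ζ k) (hij : 0 < ζ i + ζ j + 3 * c) : η i j = 0 := by
  by_contra h0
  obtain ⟨s, hs⟩ := exists_coeff_ne_zero h0
  have h1 := hw s hs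
  have h2 : ∑ k, s k = 3 := by
    have := hη i j hs
    rw [Finsupp.weight_apply, Finsupp.sum_fintype _ _ (fun _ => by simp)] at this
    simpa using this
  have h3 : (3 : ℤ) * c ≤ ∑ k, (s k : ℤ) * ζ k := by
    have h4 : (3 : ℤ) * c = ∑ k, (s k : ℤ) * c := by
      rw [← Finset.sum_mul]
      congr 1
      exact_mod_cast h2.symm
    rw [h4]
    exact Finset.sum_le_sum fun k _ => mul_le_mul_of_nonneg_left (hlow k) (Int.natCast_nonneg _)
  linarith

/-- `E` on `S² + S¹` -/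
def mE : Matrix (Fin 5) (Fin 5) ℂ := !![0,1,0,0,0; 0,0,1,0,0; 0,0,0,0,0; 0,0,0,0,1; 0,0,0,0,0]
/-- `F` on `S² + S¹` -/
def mF : Matrix (Fin 5) (Fin 5) ℂ := !![0,0,0,0,0; 2,0,0,0,0; 0,2,0,0,0; 0,0,0,0,0; 0,0,0,1,0]
/-- `H` on `S² + S¹` -/
def mH : Matrix (Fin 5) (Fin 5) ℂ := !![-2,0,0,0,0; 0,0,0,0,0; 0,0,2,0,0; 0,0,0,-1,0; 0,0,0,0,1]
/-- `E` on `S³ + S⁰` -/
def nE : Matrix (Fin 5) (Fin 5) ℂ := !![0,1,0,0,0; 0,0,1,0,0; 0,0,0,1,0; 0,0,0,0,0; 0,0,0,0,0]
/-- `F` on `S³ + S⁰` -/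
def nF : Matrix (Fin 5) (Fin 5) ℂ := !![0,0,0,0,0; 3,0,0,0,0; 0,4,0,0,0; 0,0,3,0,0; 0,0,0,0,0]
/-- `H` on `S³ + S⁰` -/
def nH : Matrix (Fin 5) (Fin 5) ℂ := !![-3,0,0,0,0; 0,-1,0,0,0; 0,0,1,0,0; 0,0,0,3,0; 0,0,0,0,0]

theorem mSl2 : Sl2 mH mE mF := by
  refine ⟨?_, ?_, ?_⟩ <;>
  · ext i j
    fin_cases i <;> fin_cases j <;> simp [mH, mE, mF, Matrix.mul_apply, Fin.sum_univ_five] <;> norm_num

theorem nSl2 : Sl2 nH nE nF := by
  refine ⟨?_, ?_, ?_⟩ <;>
  · ext i j
    fin_cases i <;> fin_cases j <;> simp [nH, nE, nF, Matrix.mul_apply, Fin.sum_univ_five] <;> norm_num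

theorem fm_core {θ : F2 5} (h : Fol θ) (hc : ¬ Cone θ) (h2 : ∀ k ≤ 2, EE θ k = ⊥)
    (b : Module.Basis (Fin 5) ℂ (Fin 5 → ℂ)) {E W : (Fin 5 → ℂ) →ₗ[ℂ] (Fin 5 → ℂ)}
    (tE : ∀ x j, ∑ i, E x i * eval x (θ i j) = 0) (tW : ∀ x j, ∑ i, W x i * eval x (θ i j) = 0)
    {H E' F' : Matrix (Fin 5) (Fin 5) ℂ} (hs : Sl2 H E' F') (w : Matrix (Fin 5) (Fin 5) ℂ) (ζ : Fin 5 → ℤ)
    (hAE : ∀ i, E (b i) = ∑ l, E' l i • b l) (hAW : ∀ i, W (b i) = ∑ l, w l i • b l)
    (hw : H + Matrix.diagonal (fun i => (ζ i : ℂ)) = (2 : ℂ) • w)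
    (gE : Gr (fun i => (ζ i : ℂ)) E') (gH : Gr (fun i => (ζ i : ℂ)) H) {i j : Fin 5} (hij : i ≠ j)
    (c : ℤ) (hlow : ∀ k, c ≤ ζ k) (hpos : 0 < ζ j + ζ i + 3 * c) : False := by
  set η : F2 5 := pb2 (fun k i => b i k) θ with hη
  have hηh : ∀ i j, (η i j).IsHomogeneous 3 := pb2_hom h.hom
  have hηc : Closed η := Closed_pb2 h.closed _
  have hηd : Dec η := Dec_pb2 h.dec _
  have hE0 : LD E' η = 0 := LD_eq_zero hηc hηd.2.1 (ct_pb2 (fun i => b i) E tE E' hAE)
  have hW0 : LD w η = 0 := LD_eq_zero hηc hηd.2.1 (ct_pb2 (fun i => b i) W tW w hAW)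
  have hH0 : LD (H + Matrix.diagonal (fun i => (ζ i : ℂ))) η = 0 := by
    rw [hw, LD_smul, hW0, smul_zero]
  have hz : η j i = 0 := zero_of_wt hηh (fun s hs' => sl2_int hs gE gH hηh hE0 hH0 j i s hs') c hlow hpos
  refine wedge_no h hc h2 (v := b i) (v' := b j) ?_ (pair_of_pb2 b hz)
  have h3 := b.linearIndependent.comp ![i, j] (by
    intro x y hxy
    fin_cases x <;> fin_cases y <;> simp_all)
  have h4 : ![b i, b j] = ⇑b ∘ ![i, j] := by
    funext x
    fin_cases x <;> rfl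
  rw [h4]
  exact h3

/-- S1, S2, S3 -/
theorem fm_no {θ : F2 5} (h : Fol θ) (hc : ¬ Cone θ) (h2 : ∀ k ≤ 2, EE θ k = ⊥)
    {b : Module.Basis (Fin 5) ℂ V5} {E W : V5 →ₗ[ℂ] V5}
    (hE : ∀ x, avE θ h (E x) ∈ KX θ x) (hW : ∀ x, avE θ h (W x) ∈ KX θ x)
    (hf : Fm1 b E W ∨ Fm2 b E W ∨ Fm3 b E W) : False := by
  have tE := sum_of_KX h hE
  have tW := sum_of_KX h hW
  rcases hf with hf | hf | hf
  · refine fm_core h hc h2 b tE tW mSl2
      !![-1,0,0,0,0; 0,0,0,0,0; 0,0,1,0,0; 0,0,0,0,0; 0,0,0,0,1] ![0, 0, 0, 1, 1] ?_ ?_ ?_ ?_ ?_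
      (i := 3) (j := 4) (by decide) 0 ?_ ?_
    · intro i
      fin_cases i
      · simpa [mE, Fin.sum_univ_five] using hf.e0
      · simpa [mE, Fin.sum_univ_five] using hf.e1
      · simpa [mE, Fin.sum_univ_five] using hf.e2
      · simpa [mE, Fin.sum_univ_five] using hf.e3
      · simpa [mE, Fin.sum_univ_five] using hf.e4
    · intro i
      fin_cases i
      · simpa [Fin.sum_univ_five] using hf.w0
      · simpa [Fin.sum_univ_five] using hf.w1
      · simpa [Fin.sum_univ_five] using hf.w2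
      · simpa [Fin.sum_univ_five] using hf.w3
      · simpa [Fin.sum_univ_five] using hf.w4
    · ext i j
      fin_cases i <;> fin_cases j <;> simp [mH] <;> norm_num
    · intro i j
      fin_cases i <;> fin_cases j <;> simp [mE]
    · intro i j
      fin_cases i <;> fin_cases j <;> simp [mH]
    · intro k
      fin_cases k <;> simp
    · decide
  · refine fm_core h hc h2 b tE tW nSl2
      !![-1,0,0,0,0; 0,0,0,0,0; 0,0,1,0,0; 0,0,0,2,0; 0,0,0,0,0] ![1, 1, 1, 1, 0] ?_ ?_ ?_ ?_ ?_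
      (i := 0) (j := 1) (by decide) 0 ?_ ?_
    · intro i
      fin_cases i
      · simpa [nE, Fin.sum_univ_five] using hf.e0
      · simpa [nE, Fin.sum_univ_five] using hf.e1
      · simpa [nE, Fin.sum_univ_five] using hf.e2
      · simpa [nE, Fin.sum_univ_five] using hf.e3
      · simpa [nE, Fin.sum_univ_five] using hf.e4
    · intro i
      fin_cases i
      · simpa [Fin.sum_univ_five] using hf.w0
      · simpa [Fin.sum_univ_five] using hf.w1
      · simpa [Fin.sum_univ_five] using hf.w2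
      · simpa [Fin.sum_univ_five] using hf.w3
      · simpa [Fin.sum_univ_five] using hf.w4
    · ext i j
      fin_cases i <;> fin_cases j <;> simp [nH] <;> norm_num
    · intro i j
      fin_cases i <;> fin_cases j <;> simp [nE]
    · intro i j
      fin_cases i <;> fin_cases j <;> simp [nH]
    · intro k
      fin_cases k <;> simp
    · decide
  · refine fm_core h hc h2 b tE tW mSl2
      !![0,0,0,0,0; 0,1,0,0,0; 0,0,2,0,0; 0,0,0,-1,0; 0,0,0,0,0] ![2, 2, 2, -1, -1] ?_ ?_ ?_ ?_ ?_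
      (i := 0) (j := 1) (by decide) (-1) ?_ ?_
    · intro i
      fin_cases i
      · simpa [mE, Fin.sum_univ_five] using hf.e0
      · simpa [mE, Fin.sum_univ_five] using hf.e1
      · simpa [mE, Fin.sum_univ_five] using hf.e2
      · simpa [mE, Fin.sum_univ_five] using hf.e3
      · simpa [mE, Fin.sum_univ_five] using hf.e4
    · intro i
      fin_cases i
      · simpa [Fin.sum_univ_five] using hf.w0
      · simpa [Fin.sum_univ_five] using hf.w1
      · simpa [Fin.sum_univ_five] using hf.w2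
      · simpa [Fin.sum_univ_five] using hf.w3
      · simpa [Fin.sum_univ_five] using hf.w4
    · ext i j
      fin_cases i <;> fin_cases j <;> simp [mH] <;> norm_num
    · intro i j
      fin_cases i <;> fin_cases j <;> simp [mE]
    · intro i j
      fin_cases i <;> fin_cases j <;> simp [mH]
    · intro k
      fin_cases k <;> simp
    · decide

theorem no_Fm {θ : F2 5} (h : Fol θ) (hc : ¬ Cone θ) (h2 : ∀ k ≤ 2, EE θ k = ⊥)
    {b : Module.Basis (Fin 5) ℂ V5} {E W : V5 →ₗ[ℂ] V5}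
    (hE : ∀ x, avE θ h (E x) ∈ KX θ x) (hW : ∀ x, avE θ h (W x) ∈ KX θ x)
    (hf : Fm1 b E W ∨ Fm2 b E W ∨ Fm3 b E W) : False := fm_no h hc h2 hE hW hf

end Pool.Agent.Helper28.Z4
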