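import Pool.Agent.Helper71.FC.Defs
import Mathlib.Algebra.Lie.Sl2

/-! Lie derivatives along linear fields `x ↦ A x`: on functions `LD0`, on 1-forms `LD1`, on 2-forms `LD`, on fields `LDv`.
`LD0_comm`, `LD1_comm`, `LD_comm`: the commutator of `L_A` and `L_B` is `L_(B A - A B)` (bracket of fields).
`LD_closed`: Cartan's formula for closed forms.  Leibniz rules for `w11`, `w12`, `ct`, `df`, `dd`. -/

set_option autoImplicit false

namespace Pool.Agent.Helper28.Z4

open MvPolynomial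
open scoped BigOperators
open Pool.Agent.Helper71.FL (w12 pf ct Dec Closed dd)
open Pool.Agent.Helper71.FC

variable {n : ℕ}

/-- the linear field `x ↦ A x` -/
noncomputable def fld (A : Matrix (Fin n) (Fin n) ℂ) : F1 n := fun i => ∑ j, C (A i j) * X j

/-- derivative of functions along `x ↦ A x` -/
noncomputable def LD0 (A : Matrix (Fin n) (Fin n) ℂ) : Derivation ℂ (Pn n) (Pn n) :=
  mkDerivation ℂ (fld A)

theorem LD0_X (A : Matrix (Fin n) (Fin n) ℂ) (i : Fin n) : LD0 A (X i) = fld A i :=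
  mkDerivation_X _ _ _

theorem LD0_C (A : Matrix (Fin n) (Fin n) ℂ) (c : ℂ) : LD0 A (C c) = 0 :=
  derivation_C _ _

theorem LD0_mul (A : Matrix (Fin n) (Fin n) ℂ) (f g : Pn n) : LD0 A (f * g) = LD0 A f * g + f * LD0 A g := by
  rw [Derivation.leibniz, smul_eq_mul, smul_eq_mul]
  ring

theorem LD0_C_mul (A : Matrix (Fin n) (Fin n) ℂ) (c : ℂ) (f : Pn n) : LD0 A (C c * f) = C c * LD0 A f := by
  rw [LD0_mul, LD0_C]
  ring

theorem LD0_eq (A : Matrix (Fin n) (Fin n) ℂ) (f : Pn n) : LD0 A f = ∑ i, fld A i * pderiv i f := by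
  induction f using MvPolynomial.induction_on with
  | C a =>
    rw [LD0_C]
    exact (Finset.sum_eq_zero fun i _ => by rw [pderiv_C, mul_zero]).symm
  | add p q hp hq =>
    rw [map_add, hp, hq, ← Finset.sum_add_distrib]
    exact Finset.sum_congr rfl fun i _ => by rw [map_add, mul_add]
  | mul_X p i hp =>
    rw [LD0_mul, hp, LD0_X]
    have h1 : ∀ j, fld A j * pderiv j (p * X i) = fld A j * pderiv j p * X i +
        p * (fld A j * pderiv j (X i)) := by
      intro j
      rw [Derivation.leibniz, smul_eq_mul, smul_eq_mul]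
      ring
    rw [Finset.sum_congr rfl (fun j _ => h1 j), Finset.sum_add_distrib, ← Finset.sum_mul,
      ← Finset.mul_sum]
    refine congrArg (fun z => _ + p * z) ?_
    rw [Finset.sum_eq_single i]
    · rw [pderiv_X_self, mul_one]
    · intro j _ hj
      rw [pderiv_X_of_ne hj.symm, mul_zero]
    · intro h
      exact absurd (Finset.mem_univ _) h

theorem fld_hom (A : Matrix (Fin n) (Fin n) ℂ) (i : Fin n) : (fld A i).IsHomogeneous 1 := by
  refine IsHomogeneous.sum _ _ _ fun j _ => ?_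
  have := (isHomogeneous_C (Fin n) (A i j)).mul (isHomogeneous_X ℂ j)
  rwa [zero_add] at this

theorem fld_add (A B : Matrix (Fin n) (Fin n) ℂ) (i : Fin n) : fld (A + B) i = fld A i + fld B i := by
  unfold fld
  rw [← Finset.sum_add_distrib]
  refine Finset.sum_congr rfl fun j _ => ?_
  rw [Matrix.add_apply, map_add, add_mul]

theorem fld_sub (A B : Matrix (Fin n) (Fin n) ℂ) (i : Fin n) : fld (A - B) i = fld A i - fld B i := by
  unfold fld
  rw [← Finset.sum_sub_distrib]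
  refine Finset.sum_congr rfl fun j _ => ?_
  rw [Matrix.sub_apply, map_sub, sub_mul]

theorem fld_smul (c : ℂ) (A : Matrix (Fin n) (Fin n) ℂ) (i : Fin n) : fld (c • A) i = C c * fld A i := by
  unfold fld
  rw [Finset.mul_sum]
  refine Finset.sum_congr rfl fun j _ => ?_
  rw [Matrix.smul_apply, smul_eq_mul, map_mul, mul_assoc]

theorem fld_mul (A B : Matrix (Fin n) (Fin n) ℂ) (i : Fin n) : fld (B * A) i = ∑ j, C (B i j) * fld A j := by
  unfold fld
  simp only [Finset.mul_sum]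
  rw [Finset.sum_comm]
  refine Finset.sum_congr rfl fun j _ => ?_
  rw [Matrix.mul_apply, map_sum, Finset.sum_mul]
  refine Finset.sum_congr rfl fun l _ => ?_
  rw [map_mul, mul_assoc]

theorem LD0_add (A B : Matrix (Fin n) (Fin n) ℂ) (f : Pn n) : LD0 (A + B) f = LD0 A f + LD0 B f := by
  rw [LD0_eq, LD0_eq, LD0_eq, ← Finset.sum_add_distrib]
  exact Finset.sum_congr rfl fun i _ => by rw [fld_add, add_mul]

theorem LD0_sub (A B : Matrix (Fin n) (Fin n) ℂ) (f : Pn n) : LD0 (A - B) f = LD0 A f - LD0 B f := by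
  rw [LD0_eq, LD0_eq, LD0_eq, ← Finset.sum_sub_distrib]
  exact Finset.sum_congr rfl fun i _ => by rw [fld_sub, sub_mul]

theorem LD0_smul (c : ℂ) (A : Matrix (Fin n) (Fin n) ℂ) (f : Pn n) : LD0 (c • A) f = C c * LD0 A f := by
  rw [LD0_eq, LD0_eq, Finset.mul_sum]
  exact Finset.sum_congr rfl fun i _ => by rw [fld_smul, mul_assoc]

theorem LD0_fld (A B : Matrix (Fin n) (Fin n) ℂ) (i : Fin n) : LD0 A (fld B i) = fld (B * A) i := by
  rw [fld_mul]
  unfold fld
  rw [map_sum]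
  exact Finset.sum_congr rfl fun j _ => by rw [LD0_C_mul, LD0_X]; rfl

theorem LD0_comm (A B : Matrix (Fin n) (Fin n) ℂ) (f : Pn n) :
    LD0 A (LD0 B f) - LD0 B (LD0 A f) = LD0 (B * A - A * B) f := by
  have h1 : ⁅LD0 A, LD0 B⁆ = LD0 (B * A - A * B) := by
    apply derivation_ext
    intro i
    rw [Derivation.commutator_apply, LD0_X, LD0_X, LD0_X, LD0_fld, LD0_fld, fld_sub]
  rw [← h1, Derivation.commutator_apply]

theorem LD0_hom {A : Matrix (Fin n) (Fin n) ℂ} {f : Pn n} {d : ℕ} (hf : f.IsHomogeneous d) :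
    (LD0 A f).IsHomogeneous d := by
  rw [LD0_eq]
  refine IsHomogeneous.sum _ _ _ fun i _ => ?_
  rcases Nat.eq_zero_or_pos d with rfl | hd
  · have h1 : f.totalDegree = 0 := by
      by_cases h0 : f = 0
      · rw [h0, totalDegree_zero]
      · exact hf.totalDegree h0
    rw [totalDegree_eq_zero_iff_eq_C] at h1
    rw [h1, pderiv_C, mul_zero]
    exact isHomogeneous_zero _ _ _
  · have h2 := (fld_hom A i).mul (hf.pderiv (i := i))
    rwa [Nat.add_sub_cancel' hd] at h2

/-- Lie derivative of 1-forms -/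
noncomputable def LD1 (A : Matrix (Fin n) (Fin n) ℂ) (ξ : F1 n) : F1 n :=
  fun j => LD0 A (ξ j) + ∑ i, C (A i j) * ξ i

/-- Lie derivative of 2-forms -/
noncomputable def LD (A : Matrix (Fin n) (Fin n) ℂ) : F2 n →ₗ[ℂ] F2 n where
  toFun θ := fun j k => LD0 A (θ j k) + ∑ i, C (A i j) * θ i k + ∑ i, C (A i k) * θ j i
  map_add' := by
    intro θ θ'
    funext j k
    simp only [Pi.add_apply, map_add, mul_add, Finset.sum_add_distrib]
    ring
  map_smul' := by
    intro c θ
    funext j k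
    simp only [Pi.smul_apply, smul_eq_C_mul, LD0_C_mul, RingHom.id_apply, mul_add, Finset.mul_sum]
    refine congrArg₂ (fun a b => a + b) (congrArg₂ (fun a b => a + b) rfl ?_) ?_
    · exact Finset.sum_congr rfl fun i _ => by ring
    · exact Finset.sum_congr rfl fun i _ => by ring

theorem LD_apply (A : Matrix (Fin n) (Fin n) ℂ) (θ : F2 n) (j k : Fin n) :
    LD A θ j k = LD0 A (θ j k) + ∑ i, C (A i j) * θ i k + ∑ i, C (A i k) * θ j i := rfl

theorem LD_add (A B : Matrix (Fin n) (Fin n) ℂ) (θ : F2 n) : LD (A + B) θ = LD A θ + LD B θ := by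
  funext j k
  simp only [LD_apply, Pi.add_apply, LD0_add, Matrix.add_apply, map_add, add_mul,
    Finset.sum_add_distrib]
  ring

theorem LD_smul (c : ℂ) (A : Matrix (Fin n) (Fin n) ℂ) (θ : F2 n) : LD (c • A) θ = c • LD A θ := by
  funext j k
  simp only [LD_apply, Pi.smul_apply, LD0_smul, Matrix.smul_apply, smul_eq_mul, map_mul,
    smul_eq_C_mul, mul_add, Finset.mul_sum]
  refine congrArg₂ (fun a b => a + b) (congrArg₂ (fun a b => a + b) rfl ?_) ?_
  · exact Finset.sum_congr rfl fun i _ => by ring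
  · exact Finset.sum_congr rfl fun i _ => by ring

theorem LD_neg (A : Matrix (Fin n) (Fin n) ℂ) (θ : F2 n) : LD (-A) θ = - LD A θ := by
  have := LD_smul (-1) A θ
  rwa [neg_one_smul, neg_one_smul] at this

theorem LD_sub (A B : Matrix (Fin n) (Fin n) ℂ) (θ : F2 n) : LD (A - B) θ = LD A θ - LD B θ := by
  rw [sub_eq_add_neg, LD_add, LD_neg, ← sub_eq_add_neg]

private theorem tr_tr (A B : Matrix (Fin n) (Fin n) ℂ) (g : Fin n → Pn n) (j : Fin n) :
    ∑ l, C (A l j) * ∑ i, C (B i l) * g i = ∑ i, C ((B * A) i j) * g i := by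
  simp only [Finset.mul_sum]
  rw [Finset.sum_comm]
  refine Finset.sum_congr rfl fun i _ => ?_
  rw [Matrix.mul_apply, map_sum, Finset.sum_mul]
  refine Finset.sum_congr rfl fun l _ => ?_
  rw [map_mul]
  ring

private theorem tr_D (A B : Matrix (Fin n) (Fin n) ℂ) (g : Fin n → Pn n) (j : Fin n) :
    LD0 A (∑ i, C (B i j) * g i) = ∑ i, C (B i j) * LD0 A (g i) := by
  rw [map_sum]
  exact Finset.sum_congr rfl fun i _ => LD0_C_mul _ _ _

theorem LD1_comm (A B : Matrix (Fin n) (Fin n) ℂ) (ξ : F1 n) (j : Fin n) :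
    LD1 A (LD1 B ξ) j - LD1 B (LD1 A ξ) j = LD1 (B * A - A * B) ξ j := by
  have h1 : ∀ A B : Matrix (Fin n) (Fin n) ℂ, LD1 A (LD1 B ξ) j = LD0 A (LD0 B (ξ j)) +
      ∑ i, C (B i j) * LD0 A (ξ i) + ∑ i, C (A i j) * LD0 B (ξ i) + ∑ i, C ((B * A) i j) * ξ i := by
    intro A B
    show LD0 A (LD0 B (ξ j) + ∑ i, C (B i j) * ξ i) +
      ∑ l, C (A l j) * (LD0 B (ξ l) + ∑ i, C (B i l) * ξ i) = _
    rw [map_add, tr_D, ← tr_tr]
    simp only [mul_add, Finset.sum_add_distrib]
    ring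
  rw [h1, h1]
  show _ = LD0 (B * A - A * B) (ξ j) + ∑ i, C ((B * A - A * B) i j) * ξ i
  rw [← LD0_comm]
  have h2 : ∑ i, C ((B * A - A * B) i j) * ξ i = ∑ i, C ((B * A) i j) * ξ i - ∑ i, C ((A * B) i j) * ξ i := by
    rw [← Finset.sum_sub_distrib]
    exact Finset.sum_congr rfl fun i _ => by rw [Matrix.sub_apply, map_sub, sub_mul]
  rw [h2]
  ring

theorem LD_comm (A B : Matrix (Fin n) (Fin n) ℂ) (θ : F2 n) :
    LD A (LD B θ) - LD B (LD A θ) = LD (B * A - A * B) θ := by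
  funext j k
  have h1 : ∀ A B : Matrix (Fin n) (Fin n) ℂ, LD A (LD B θ) j k = LD0 A (LD0 B (θ j k)) +
      ∑ i, C (B i j) * LD0 A (θ i k) + ∑ i, C (B i k) * LD0 A (θ j i) +
      ∑ i, C (A i j) * LD0 B (θ i k) + ∑ i, C (A i k) * LD0 B (θ j i) +
      ∑ i, C ((B * A) i j) * θ i k + ∑ i, C ((B * A) i k) * θ j i +
      ∑ l, ∑ i, C (A l j) * (C (B i k) * θ l i) + ∑ l, ∑ i, C (A l k) * (C (B i j) * θ i l) := by
    intro A B
    rw [LD_apply, LD_apply, map_add, map_add, tr_D, tr_D A B (fun i => θ j i),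
      ← tr_tr A B (fun i => θ i k), ← tr_tr A B (fun i => θ j i)]
    simp only [LD_apply, mul_add, Finset.sum_add_distrib, Finset.mul_sum]
    ring
  have h3 : ∑ l, ∑ i, C (A l j) * (C (B i k) * θ l i) = ∑ l, ∑ i, C (B l k) * (C (A i j) * θ i l) := by
    rw [Finset.sum_comm]
    exact Finset.sum_congr rfl fun i _ => Finset.sum_congr rfl fun l _ => by ring
  have h4 : ∑ l, ∑ i, C (A l k) * (C (B i j) * θ i l) = ∑ l, ∑ i, C (B l j) * (C (A i k) * θ l i) := by
    rw [Finset.sum_comm]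
    exact Finset.sum_congr rfl fun i _ => Finset.sum_congr rfl fun l _ => by ring
  show LD A (LD B θ) j k - LD B (LD A θ) j k = _
  rw [h1, h1, LD_apply, ← LD0_comm]
  have h2 : ∀ g : Fin n → Pn n, ∀ j, ∑ i, C ((B * A - A * B) i j) * g i =
      ∑ i, C ((B * A) i j) * g i - ∑ i, C ((A * B) i j) * g i := by
    intro g j
    rw [← Finset.sum_sub_distrib]
    exact Finset.sum_congr rfl fun i _ => by rw [Matrix.sub_apply, map_sub, sub_mul]
  rw [h2 (fun i => θ i k), h2 (fun i => θ j i), h3, h4]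
  ring

/-- Cartan's formula for closed 2-forms -/
theorem LD_closed {θ : F2 n} (hc : Closed θ) (ha : ∀ i j, θ i j = - θ j i) (A : Matrix (Fin n) (Fin n) ℂ)
    (j k : Fin n) : LD A θ j k = pderiv j (ct (fld A) θ k) - pderiv k (ct (fld A) θ j) := by
  have hp : ∀ i j, pderiv j (fld A i) = C (A i j) := by
    intro i j
    unfold fld
    rw [map_sum, Finset.sum_eq_single j]
    · rw [pderiv_C_mul, pderiv_X_self]
      simp [smul_eq_C_mul]
    · intro l _ hl
      rw [pderiv_C_mul, pderiv_X_of_ne hl]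
      simp
    · intro h
      exact absurd (Finset.mem_univ _) h
  rw [LD_apply, LD0_eq]
  unfold ct
  rw [map_sum, map_sum, ← Finset.sum_add_distrib, ← Finset.sum_add_distrib, ← Finset.sum_sub_distrib]
  refine Finset.sum_congr rfl fun i _ => ?_
  rw [Derivation.leibniz, Derivation.leibniz, hp, hp]
  simp only [smul_eq_mul]
  have h1 := hc i j k
  have h2 : pderiv j (θ k i) = - pderiv j (θ i k) := by rw [ha k i, map_neg]
  rw [ha j i]
  rw [h2] at h1
  linear_combination (fld A i) * h1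

theorem LD_eq_zero {θ : F2 n} (hc : Closed θ) (ha : ∀ i j, θ i j = - θ j i)
    {A : Matrix (Fin n) (Fin n) ℂ} (h : ∀ j, ct (fld A) θ j = 0) : LD A θ = 0 := by
  funext j k
  rw [LD_closed hc ha, h, h, map_zero, map_zero, sub_zero]
  rfl

/-- bracket of the field `x ↦ A x` with a field -/
noncomputable def LDv (A : Matrix (Fin n) (Fin n) ℂ) (W : F1 n) : F1 n :=
  fun i => LD0 A (W i) - ∑ l, C (A i l) * W l

theorem LDv_fld (A B : Matrix (Fin n) (Fin n) ℂ) : LDv A (fld B) = fld (B * A - A * B) := by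
  funext i
  unfold LDv
  rw [LD0_fld, ← fld_mul, fld_sub]

theorem LDv_cv (A : Matrix (Fin n) (Fin n) ℂ) (v : Fin n → ℂ) : LDv A (cv v) = cv (- A.mulVec v) := by
  funext i
  unfold LDv cv
  rw [LD0_C]
  simp only [Pi.neg_apply, map_neg, Matrix.mulVec, dotProduct, map_sum, map_mul]
  ring

theorem LD1_ct (A : Matrix (Fin n) (Fin n) ℂ) (W : F1 n) (θ : F2 n) (j : Fin n) :
    LD1 A (ct W θ) j = ct (LDv A W) θ j + ct W (LD A θ) j := by
  have h1 : ∑ i, (∑ l, C (A i l) * W l) * θ i j = ∑ i, W i * ∑ l, C (A l i) * θ l j := by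
    simp only [Finset.sum_mul, Finset.mul_sum]
    rw [Finset.sum_comm]
    exact Finset.sum_congr rfl fun i _ => Finset.sum_congr rfl fun l _ => by ring
  have h2 : ∑ i, C (A i j) * ∑ l, W l * θ l i = ∑ i, W i * ∑ l, C (A l j) * θ i l := by
    simp only [Finset.mul_sum]
    rw [Finset.sum_comm]
    exact Finset.sum_congr rfl fun i _ => Finset.sum_congr rfl fun l _ => by ring
  show LD0 A (∑ i, W i * θ i j) + ∑ i, C (A i j) * ∑ l, W l * θ l i = _
  rw [h2, map_sum]
  unfold ct LDv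
  simp only [LD_apply, mul_add, Finset.sum_add_distrib, sub_mul, Finset.sum_sub_distrib, LD0_mul]
  rw [h1]
  ring

theorem LD1_av (A : Matrix (Fin n) (Fin n) ℂ) (θ : F2 n) (v : Fin n → ℂ) (j : Fin n) :
    LD1 A (av θ v) j = - av θ (A.mulVec v) j + ct (cv v) (LD A θ) j := by
  unfold av
  rw [LD1_ct, LDv_cv]
  congr 1
  unfold ct cv
  rw [← Finset.sum_neg_distrib]
  exact Finset.sum_congr rfl fun i _ => by rw [Pi.neg_apply, map_neg, neg_mul]

theorem LD1_df (A : Matrix (Fin n) (Fin n) ℂ) (f : Pn n) : LD1 A (df f) = df (LD0 A f) := by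
  funext j
  have hp : ∀ i j, pderiv j (fld A i) = C (A i j) := by
    intro i j
    unfold fld
    rw [map_sum, Finset.sum_eq_single j]
    · rw [pderiv_C_mul, pderiv_X_self]
      simp [smul_eq_C_mul]
    · intro l _ hl
      rw [pderiv_C_mul, pderiv_X_of_ne hl]
      simp
    · intro h
      exact absurd (Finset.mem_univ _) h
  unfold LD1 df
  rw [LD0_eq, LD0_eq, map_sum, ← Finset.sum_add_distrib]
  refine Finset.sum_congr rfl fun i _ => ?_
  rw [Derivation.leibniz, hp, smul_eq_mul, smul_eq_mul]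
  have h1 : pderiv i (pderiv j f) = pderiv j (pderiv i f) := by
    have h2 : ⁅(pderiv i : Derivation ℂ (Pn n) (Pn n)), (pderiv j : Derivation ℂ (Pn n) (Pn n))⁆ = 0 := by
      apply derivation_ext
      intro l
      have h6 : ∀ a b : Fin n, pderiv a (pderiv b (X l : Pn n)) = 0 := by
        intro a b
        by_cases h3 : l = b
        · subst h3
          rw [pderiv_X_self, pderiv_one]
        · rw [pderiv_X_of_ne h3, map_zero]
      rw [Derivation.commutator_apply, h6, h6, sub_zero, Derivation.zero_apply]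
    have h5 := congrArg (fun D : Derivation ℂ (Pn n) (Pn n) => D f) h2
    simp only [Derivation.commutator_apply, Derivation.zero_apply] at h5
    exact sub_eq_zero.mp h5
  rw [h1]
  ring

theorem LD_w11 (A : Matrix (Fin n) (Fin n) ℂ) (ξ ξ' : F1 n) (j k : Fin n) :
    LD A (w11 ξ ξ') j k = w11 (LD1 A ξ) ξ' j k + w11 ξ (LD1 A ξ') j k := by
  rw [LD_apply]
  unfold w11 LD1
  rw [map_sub, LD0_mul, LD0_mul]
  simp only [mul_sub, Finset.sum_sub_distrib, add_mul, mul_add, Finset.sum_mul, Finset.mul_sum]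
  have e1 : ∑ i, C (A i j) * (ξ i * ξ' k) = ∑ i, C (A i j) * ξ i * ξ' k :=
    Finset.sum_congr rfl fun i _ => by ring
  have e2 : ∑ i, C (A i j) * (ξ k * ξ' i) = ∑ i, ξ k * (C (A i j) * ξ' i) :=
    Finset.sum_congr rfl fun i _ => by ring
  have e3 : ∑ i, C (A i k) * (ξ j * ξ' i) = ∑ i, ξ j * (C (A i k) * ξ' i) :=
    Finset.sum_congr rfl fun i _ => by ring
  have e4 : ∑ i, C (A i k) * (ξ i * ξ' j) = ∑ i, C (A i k) * ξ i * ξ' j :=
    Finset.sum_congr rfl fun i _ => by ring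
  rw [e1, e2, e3, e4]
  ring

/-- Leibniz rule for `ξ ∧ θ` -/
theorem LD_w12 (A : Matrix (Fin n) (Fin n) ℂ) (ξ : F1 n) (θ : F2 n) (i j k : Fin n) :
    LD0 A (w12 ξ θ i j k) + ∑ l, C (A l i) * w12 ξ θ l j k + ∑ l, C (A l j) * w12 ξ θ i l k +
      ∑ l, C (A l k) * w12 ξ θ i j l = w12 (LD1 A ξ) θ i j k + w12 ξ (LD A θ) i j k := by
  have e : ∀ (f : Pn n) (g : Fin n → Pn n) (a : Fin n), (∑ l, C (A l a) * g l) * f = ∑ l, C (A l a) * (g l * f) := by
    intro f g a
    rw [Finset.sum_mul]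
    exact Finset.sum_congr rfl fun l _ => by ring
  have e' : ∀ (f : Pn n) (g : Fin n → Pn n) (a : Fin n), f * (∑ l, C (A l a) * g l) = ∑ l, C (A l a) * (f * g l) := by
    intro f g a
    rw [Finset.mul_sum]
    exact Finset.sum_congr rfl fun l _ => by ring
  unfold w12 LD1
  simp only [LD_apply, map_add, LD0_mul, mul_add, add_mul, Finset.sum_add_distrib, e, e']
  ring

theorem LD1_hom {A : Matrix (Fin n) (Fin n) ℂ} {ξ : F1 n} {d : ℕ} (hξ : ∀ i, (ξ i).IsHomogeneous d)
    (i : Fin n) : (LD1 A ξ i).IsHomogeneous d := by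
  refine (LD0_hom (hξ i)).add (IsHomogeneous.sum _ _ _ fun l _ => ?_)
  have := (isHomogeneous_C (Fin n) (A l i)).mul (hξ l)
  rwa [zero_add] at this

theorem LD_hom {A : Matrix (Fin n) (Fin n) ℂ} {θ : F2 n} {d : ℕ} (hθ : ∀ i j, (θ i j).IsHomogeneous d)
    (i j : Fin n) : (LD A θ i j).IsHomogeneous d := by
  rw [LD_apply]
  refine ((LD0_hom (hθ i j)).add (IsHomogeneous.sum _ _ _ fun l _ => ?_)).add
    (IsHomogeneous.sum _ _ _ fun l _ => ?_)
  · have := (isHomogeneous_C (Fin n) (A l i)).mul (hθ l j)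
    rwa [zero_add] at this
  · have := (isHomogeneous_C (Fin n) (A l j)).mul (hθ i l)
    rwa [zero_add] at this

/-- fields with `L_A θ = c θ` preserve the forms annihilated by `θ` -/
theorem LD1_mem_EE {θ : F2 n} {A : Matrix (Fin n) (Fin n) ℂ} {c : ℂ} (hA : LD A θ = c • θ) {k : ℕ}
    {ξ : F1 n} (hξ : ξ ∈ EE θ k) : LD1 A ξ ∈ EE θ k := by
  refine ⟨LD1_hom hξ.1, fun i j l => ?_⟩
  have h1 := LD_w12 A ξ θ i j l
  have h2 : w12 ξ (LD A θ) i j l = 0 := by
    have h3 := hξ.2 i j l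
    rw [hA]
    unfold w12 at h3 ⊢
    simp only [Pi.smul_apply, smul_eq_C_mul]
    linear_combination C c * h3
  simp only [hξ.2, map_zero, mul_zero, Finset.sum_const_zero, add_zero, h2] at h1
  exact h1.symm

end Pool.Agent.Helper28.Z4
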