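import Pool.Agent.Helper28.Z4.LieD

/-! `sl_2` acting on 2-forms by linear fields.  `Sl2 H E F`: the fields `x ↦ H x, E x, F x` form an `sl_2`-triple for the
bracket of fields `[A, B] = B A - A B`.  `sl2_nat`: `L_E θ = 0`, `L_H θ = μ θ`, `θ ≠ 0` imply `μ ∈ ℕ`.
`sl2_weights`: if `w` is a grading of the coordinates preserved by `H, E, F`, `L_E θ = 0` and `L_(H + w) θ = 0` then all weights of `θ`
are in `-ℕ`. -/

set_option autoImplicit false

namespace Pool.Agent.Helper28.Z4

open MvPolynomial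
open scoped BigOperators
open Pool.Agent.Helper71.FL (w12 pf ct Dec Closed dd)
open Pool.Agent.Helper71.FC

attribute [local instance 100] LieRing.ofAssociativeRing

variable {n : ℕ}

/-- triples of linear fields -/
structure Sl2 (H E F : Matrix (Fin n) (Fin n) ℂ) : Prop where
  he : E * H - H * E = (2 : ℂ) • E
  hf : F * H - H * F = - ((2 : ℂ) • F)
  ef : F * E - E * F = H

/-- 2-forms with homogeneous coefficients of degree `d` -/
def HF (n d : ℕ) : Submodule ℂ (F2 n) where
  carrier := {θ | ∀ i j, (θ i j).IsHomogeneous d}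
  add_mem' := fun h h' i j => (h i j).add (h' i j)
  zero_mem' := fun _ _ => isHomogeneous_zero _ _ _
  smul_mem' := by
    intro c θ h i j
    have := (isHomogeneous_C (Fin n) c).mul (h i j)
    rw [zero_add] at this
    rw [Pi.smul_apply, Pi.smul_apply, smul_eq_C_mul]
    exact this

theorem finite_HF (n d : ℕ) : Module.Finite ℂ (HF n d) := by
  have h1 : Module.Finite ℂ (homogeneousSubmodule (Fin n) ℂ d) :=
    Module.Finite.iff_fg.mpr (homogeneousSubmodule_fg (Fin n) ℂ d)
  let f : HF n d →ₗ[ℂ] (Fin n → Fin n → homogeneousSubmodule (Fin n) ℂ d) :=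
    { toFun := fun b i j => ⟨b.1 i j, b.2 i j⟩
      map_add' := fun a b => rfl
      map_smul' := fun c a => rfl }
  refine Module.Finite.of_injective f fun a b hab => ?_
  apply Subtype.ext
  funext i j
  exact congrArg Subtype.val (congrFun (congrFun hab i) j)

/-- the restriction of `LD A` to forms of degree `d` -/
noncomputable def LDr (d : ℕ) (A : Matrix (Fin n) (Fin n) ℂ) : Module.End ℂ (HF n d) :=
  (LD A).restrict (fun _ h => LD_hom h)

theorem LDr_coe (d : ℕ) (A : Matrix (Fin n) (Fin n) ℂ) (θ : HF n d) : ((LDr d A θ : HF n d) : F2 n) = LD A θ.1 := rfl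

theorem LDr_comm (d : ℕ) (A B : Matrix (Fin n) (Fin n) ℂ) : ⁅LDr d A, LDr d B⁆ = LDr d (B * A - A * B) := by
  apply LinearMap.ext
  intro θ
  apply Subtype.ext
  rw [LDr_coe, ← LD_comm]
  rfl

theorem sl2_nat {H E F : Matrix (Fin n) (Fin n) ℂ} (hs : Sl2 H E F) {d : ℕ} {θ : F2 n}
    (hθ : ∀ i j, (θ i j).IsHomogeneous d) (hne : θ ≠ 0) (hE : LD E θ = 0) {μ : ℂ}
    (hH : LD H θ = μ • θ) : ∃ k : ℕ, μ = k := by
  have hfin := finite_HF n d
  let t : HF n d := ⟨θ, hθ⟩
  have ht0 : t ≠ 0 := by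
    intro h
    exact hne (congrArg Subtype.val h)
  by_cases h0 : LDr d H = 0
  · refine ⟨0, ?_⟩
    have h1 : μ • θ = 0 := by
      rw [← hH]
      have h2 := congrArg (fun f : Module.End ℂ (HF n d) => ((f t : HF n d) : F2 n)) h0
      exact h2
    rw [Nat.cast_zero]
    exact (smul_eq_zero.mp h1).resolve_right hne
  · have hT : IsSl2Triple (LDr d H) (LDr d E) (LDr d F) := by
      refine ⟨h0, ?_, ?_, ?_⟩
      · rw [LDr_comm, hs.ef]
      · rw [LDr_comm, hs.he]
        apply LinearMap.ext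
        intro x
        apply Subtype.ext
        show LD ((2 : ℂ) • E) x.1 = (2 • LDr d E x : HF n d).1
        rw [LD_smul, two_smul, two_smul]
        rfl
      · rw [LDr_comm, hs.hf]
        apply LinearMap.ext
        intro x
        rw [two_smul, two_smul, LinearMap.neg_apply, LinearMap.add_apply]
        apply Subtype.ext
        rw [Submodule.coe_neg, Submodule.coe_add]
        show LD (- (F + F)) x.1 = - (LD F x.1 + LD F x.1)
        rw [LD_neg, LD_add]
    have hP : hT.HasPrimitiveVectorWith t μ := by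
      refine ⟨ht0, ?_, ?_⟩
      · apply Subtype.ext
        exact hH
      · apply Subtype.ext
        exact hE
    exact hP.exists_nat

/-! ### gradings -/

/-- the matrix preserves the grading -/
def Gr (w : Fin n → ℂ) (A : Matrix (Fin n) (Fin n) ℂ) : Prop := ∀ i j, A i j ≠ 0 → w i = w j

theorem Gr.diag (w : Fin n → ℂ) : Gr w (Matrix.diagonal w) := by
  intro i j h
  by_cases hij : i = j
  · rw [hij]
  · exact absurd (Matrix.diagonal_apply_ne w hij) h

theorem Gr.of_comm {w : Fin n → ℂ} {A : Matrix (Fin n) (Fin n) ℂ}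
    (h : Matrix.diagonal w * A = A * Matrix.diagonal w) : Gr w A := by
  intro i j hA
  have h1 := congrFun (congrFun h i) j
  rw [Matrix.diagonal_mul, Matrix.mul_diagonal, mul_comm] at h1
  exact mul_left_cancel₀ hA h1

theorem LD0_wh {w : Fin n → ℂ} {A : Matrix (Fin n) (Fin n) ℂ} (hA : Gr w A) (s : Fin n →₀ ℕ) (c : ℂ) :
    ∃ m : ℂ, IsWeightedHomogeneous w (monomial s c) m ∧ IsWeightedHomogeneous w (LD0 A (monomial s c)) m := by
  refine MvPolynomial.induction_on_monomial (motive := fun p : Pn n => ∃ m : ℂ,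
    IsWeightedHomogeneous w p m ∧ IsWeightedHomogeneous w (LD0 A p) m) ?_ ?_ s c
  · intro a
    refine ⟨0, isWeightedHomogeneous_C _ _, ?_⟩
    rw [LD0_C]
    exact isWeightedHomogeneous_zero _ _ _
  · rintro p i ⟨m, h1, h2⟩
    refine ⟨m + w i, h1.mul (isWeightedHomogeneous_X _ _ _), ?_⟩
    rw [LD0_mul, LD0_X]
    refine (h2.mul (isWeightedHomogeneous_X _ _ _)).add (h1.mul ?_)
    unfold fld
    refine IsWeightedHomogeneous.sum _ _ _ fun j _ => ?_
    by_cases h3 : A i j = 0
    · rw [h3, map_zero, zero_mul]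
      exact isWeightedHomogeneous_zero _ _ _
    · rw [hA i j h3]
      have := (isWeightedHomogeneous_C w (A i j)).mul (isWeightedHomogeneous_X ℂ w j)
      rwa [zero_add] at this

theorem whc_LD0 {w : Fin n → ℂ} {A : Matrix (Fin n) (Fin n) ℂ} (hA : Gr w A) (m : ℂ) (f : Pn n) :
    weightedHomogeneousComponent w m (LD0 A f) = LD0 A (weightedHomogeneousComponent w m f) := by
  classical
  induction f using MvPolynomial.induction_on' with
  | monomial s c =>
    obtain ⟨m', h1, h2⟩ := LD0_wh hA s c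
    rw [weightedHomogeneousComponent_of_mem h1, weightedHomogeneousComponent_of_mem h2]
    split_ifs
    · rfl
    · rw [map_zero]
  | add p q hp hq => rw [map_add, map_add, map_add, map_add, hp, hq]

theorem LD0_diag_mon (w : Fin n → ℂ) (s : Fin n →₀ ℕ) (c : ℂ) :
    ∃ m : ℂ, IsWeightedHomogeneous w (monomial s c) m ∧
      LD0 (Matrix.diagonal w) (monomial s c) = C m * monomial s c := by
  refine MvPolynomial.induction_on_monomial (motive := fun p : Pn n => ∃ m : ℂ,
    IsWeightedHomogeneous w p m ∧ LD0 (Matrix.diagonal w) p = C m * p) ?_ ?_ s c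
  · intro a
    refine ⟨0, isWeightedHomogeneous_C _ _, ?_⟩
    rw [LD0_C, map_zero, zero_mul]
  · rintro p i ⟨m, h1, h2⟩
    refine ⟨m + w i, h1.mul (isWeightedHomogeneous_X _ _ _), ?_⟩
    rw [LD0_mul, LD0_X, h2, map_add]
    have h3 : fld (Matrix.diagonal w) i = C (w i) * X i := by
      unfold fld
      rw [Finset.sum_eq_single i]
      · rw [Matrix.diagonal_apply_eq]
      · intro j _ hj
        rw [Matrix.diagonal_apply_ne w hj.symm, map_zero, zero_mul]
      · intro h
        exact absurd (Finset.mem_univ _) h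
    rw [h3]
    ring

theorem LD0_diag {w : Fin n → ℂ} {m : ℂ} {f : Pn n} (hf : IsWeightedHomogeneous w f m) :
    LD0 (Matrix.diagonal w) f = C m * f := by
  refine IsWeightedHomogeneous.induction_on (w := w) (m := m)
    (motive := fun p _ => LD0 (Matrix.diagonal w) p = C m * p) ?_ ?_ ?_ hf
  · rw [map_zero, mul_zero]
  · intro p q _ _ hp hq
    rw [map_add, hp, hq, mul_add]
  · intro s r hr
    obtain ⟨m', h1, h2⟩ := LD0_diag_mon w s r
    by_cases h0 : monomial s r = (0 : Pn n)
    · rw [h0, map_zero, mul_zero]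
    · rw [h2, IsWeightedHomogeneous.inj_right h0 h1 (isWeightedHomogeneous_monomial w s r hr)]

/-- the part of weight `m` of a 2-form -/
noncomputable def prw (w : Fin n → ℂ) (m : ℂ) : F2 n →ₗ[ℂ] F2 n where
  toFun θ := fun i j => weightedHomogeneousComponent w (m - w i - w j) (θ i j)
  map_add' := by
    intro θ θ'
    funext i j
    simp only [Pi.add_apply, map_add]
  map_smul' := by
    intro c θ
    funext i j
    simp only [Pi.smul_apply, map_smul, RingHom.id_apply]

theorem prw_apply (w : Fin n → ℂ) (m : ℂ) (θ : F2 n) (i j : Fin n) :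
    prw w m θ i j = weightedHomogeneousComponent w (m - w i - w j) (θ i j) := rfl

theorem prw_LD {w : Fin n → ℂ} {A : Matrix (Fin n) (Fin n) ℂ} (hA : Gr w A) (m : ℂ) (θ : F2 n) :
    prw w m (LD A θ) = LD A (prw w m θ) := by
  funext i j
  rw [prw_apply, LD_apply, LD_apply, map_add, map_add, map_sum, map_sum, whc_LD0 hA, prw_apply]
  congr 1
  · congr 1
    refine Finset.sum_congr rfl fun l _ => ?_
    rw [weightedHomogeneousComponent_C_mul, prw_apply]
    by_cases h : A l i = 0
    · rw [h, map_zero, zero_mul, zero_mul]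
    · rw [hA l i h]
  · refine Finset.sum_congr rfl fun l _ => ?_
    rw [weightedHomogeneousComponent_C_mul, prw_apply]
    by_cases h : A l j = 0
    · rw [h, map_zero, zero_mul, zero_mul]
    · rw [hA l j h]

theorem LD_diag_prw (w : Fin n → ℂ) (m : ℂ) (θ : F2 n) :
    LD (Matrix.diagonal w) (prw w m θ) = m • prw w m θ := by
  funext i j
  have h1 : ∀ (g : Fin n → Pn n) (i : Fin n), ∑ l, C (Matrix.diagonal w l i) * g l = C (w i) * g i := by
    intro g i
    rw [Finset.sum_eq_single i]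
    · rw [Matrix.diagonal_apply_eq]
    · intro l _ hl
      rw [Matrix.diagonal_apply_ne w hl, map_zero, zero_mul]
    · intro h
      exact absurd (Finset.mem_univ _) h
  rw [LD_apply, h1 (fun l => prw w m θ l j), h1 (fun l => prw w m θ i l), prw_apply,
    LD0_diag (weightedHomogeneousComponent_isWeightedHomogeneous (m - w i - w j) (θ i j)), ← prw_apply]
  rw [Pi.smul_apply, Pi.smul_apply, smul_eq_C_mul, map_sub, map_sub]
  ring

theorem prw_hom {w : Fin n → ℂ} {m : ℂ} {d : ℕ} {θ : F2 n} (hθ : ∀ i j, (θ i j).IsHomogeneous d)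
    (i j : Fin n) : (prw w m θ i j).IsHomogeneous d := by
  classical
  intro s hs
  rw [prw_apply, coeff_weightedHomogeneousComponent] at hs
  refine hθ i j ?_
  intro h
  rw [h] at hs
  simp at hs

/-- the weights of a 2-form killed by `E` and `H + w` are in `-ℕ` -/
theorem sl2_weights {H E F : Matrix (Fin n) (Fin n) ℂ} (hs : Sl2 H E F) {w : Fin n → ℂ}
    (gE : Gr w E) (gH : Gr w H) {d : ℕ} {θ : F2 n}
    (hθ : ∀ i j, (θ i j).IsHomogeneous d) (hE : LD E θ = 0)
    (hH : LD (H + Matrix.diagonal w) θ = 0) (i j : Fin n) (s : Fin n →₀ ℕ)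
    (hc : coeff s (θ i j) ≠ 0) : ∃ k : ℕ, Finsupp.weight w s + w i + w j = - (k : ℂ) := by
  classical
  set m : ℂ := Finsupp.weight w s + w i + w j with hm
  have hne : prw w m θ ≠ 0 := by
    intro h
    have h1 := congrFun (congrFun h i) j
    have h2 := congrArg (coeff s) h1
    rw [prw_apply, coeff_weightedHomogeneousComponent, if_pos (by rw [hm]; ring)] at h2
    exact hc (by simpa using h2)
  have h1 : LD E (prw w m θ) = 0 := by rw [← prw_LD gE, hE, map_zero]
  have h2 : LD H (prw w m θ) = (-m) • prw w m θ := by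
    have h3 := congrArg (prw w m) hH
    rw [LD_add, map_add, prw_LD gH, prw_LD (Gr.diag w), LD_diag_prw, map_zero] at h3
    rw [neg_smul]
    exact eq_neg_of_add_eq_zero_left h3
  obtain ⟨k, hk⟩ := sl2_nat hs (prw_hom hθ) hne h1 h2
  exact ⟨k, by rw [← hk, neg_neg]⟩

/-- integral gradings: all weights of `θ` are `≤ 0` -/
theorem sl2_int {H E F : Matrix (Fin n) (Fin n) ℂ} (hs : Sl2 H E F) {ζ : Fin n → ℤ}
    (gE : Gr (fun i => (ζ i : ℂ)) E) (gH : Gr (fun i => (ζ i : ℂ)) H) {d : ℕ} {θ : F2 n}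
    (hθ : ∀ i j, (θ i j).IsHomogeneous d) (hE : LD E θ = 0)
    (hH : LD (H + Matrix.diagonal (fun i => (ζ i : ℂ))) θ = 0) (i j : Fin n) (s : Fin n →₀ ℕ)
    (hc : coeff s (θ i j) ≠ 0) : ζ i + ζ j + ∑ k, (s k : ℤ) * ζ k ≤ 0 := by
  obtain ⟨k, hk⟩ := sl2_weights hs gE gH hθ hE hH i j s hc
  have h1 : Finsupp.weight (fun i => (ζ i : ℂ)) s = ((∑ k, (s k : ℤ) * ζ k : ℤ) : ℂ) := by
    rw [Finsupp.weight_apply, Finsupp.sum_fintype _ _ (fun _ => by simp), Int.cast_sum]
    refine Finset.sum_congr rfl fun l _ => ?_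
    simp [nsmul_eq_mul]
  rw [h1] at hk
  have h2 : (((∑ k, (s k : ℤ) * ζ k) + ζ i + ζ j + (k : ℤ) : ℤ) : ℂ) = 0 := by
    push_cast at hk ⊢
    rw [hk]
    ring
  rw [Int.cast_eq_zero] at h2
  have h3 : (0 : ℤ) ≤ (k : ℤ) := Int.natCast_nonneg k
  omega

/-- non negative integral gradings: `θ` does not involve the variables of positive weight -/
theorem sl2_cone {H E F : Matrix (Fin n) (Fin n) ℂ} (hs : Sl2 H E F) {u : Fin n → ℕ}
    (gE : Gr (fun i => (u i : ℂ)) E) (gH : Gr (fun i => (u i : ℂ)) H)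
    {d : ℕ} {θ : F2 n} (hθ : ∀ i j, (θ i j).IsHomogeneous d) (hE : LD E θ = 0)
    (hH : LD (H + Matrix.diagonal (fun i => (u i : ℂ))) θ = 0) (i : Fin n) (hi : u i ≠ 0) (j : Fin n) :
    θ i j = 0 := by
  by_contra h0
  obtain ⟨s, hs'⟩ := exists_coeff_ne_zero h0
  obtain ⟨k, hk⟩ := sl2_weights hs gE gH hθ hE hH i j s hs'
  have h1 : Finsupp.weight (fun i => (u i : ℂ)) s = ((Finsupp.weight u s : ℕ) : ℂ) := by
    rw [Finsupp.weight_apply, Finsupp.weight_apply, Finsupp.sum, Finsupp.sum, Nat.cast_sum]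
    refine Finset.sum_congr rfl fun l _ => ?_
    simp [nsmul_eq_mul]
  rw [h1] at hk
  have h2 : ((Finsupp.weight u s + u i + u j + k : ℕ) : ℂ) = 0 := by
    push_cast
    rw [hk]
    ring
  rw [Nat.cast_eq_zero] at h2
  omega

theorem sl2_Cone {H E F : Matrix (Fin n) (Fin n) ℂ} (hs : Sl2 H E F) {u : Fin n → ℕ}
    (gE : Gr (fun i => (u i : ℂ)) E) (gH : Gr (fun i => (u i : ℂ)) H)
    {d : ℕ} {θ : F2 n} (hθ : ∀ i j, (θ i j).IsHomogeneous d) (hE : LD E θ = 0)
    (hH : LD (H + Matrix.diagonal (fun i => (u i : ℂ))) θ = 0) (i : Fin n) (hi : u i ≠ 0) :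
    Cone θ := by
  refine ⟨Pi.single i 1, ?_, fun j => ?_⟩
  · intro h
    have := congrFun h i
    simp at this
  · unfold av ct cv
    apply Finset.sum_eq_zero
    intro l _
    by_cases hl : l = i
    · subst hl
      rw [sl2_cone hs gE gH hθ hE hH l hi j, mul_zero]
    · rw [Pi.single_eq_of_ne hl, map_zero, zero_mul]

end Pool.Agent.Helper28.Z4
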